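import Mathlib

/-!
# Upper unitriangular matrices: the group `U`, the algebra `nil` and its dual
-/

set_option autoImplicit false

namespace Pool.Agent.D0H73.SC

open Matrix Module

/-- `U n F` is the group of upper unitriangular `n × n` matrices over `F`, as a subgroup of
`GL_n(F)`: all the entries below the diagonal are `0` and the diagonal entries are `1`. -/
def U (n : ℕ) (F : Type) [Field F] : Subgroup (Matrix (Fin n) (Fin n) F)ˣ where
  carrier := {g | (∀ i j, j < i → g.val i j = 0) ∧ ∀ i, g.val i i = 1}
  mul_mem' := by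
    rintro a b ⟨ha, ha'⟩ ⟨hb, hb'⟩
    constructor
    · intro i j hij
      rw [Units.val_mul, mul_apply]
      refine Finset.sum_eq_zero fun k _ => ?_
      rcases lt_or_ge k i with h | h
      · rw [ha i k h, zero_mul]
      · rw [hb k j (lt_of_lt_of_le hij h), mul_zero]
    · intro i
      rw [Units.val_mul, mul_apply, Finset.sum_eq_single i]
      · rw [ha', hb', mul_one]
      · intro k _ hk
        rcases lt_or_gt_of_ne hk with h | h
        · rw [ha i k h, zero_mul]
        · rw [hb k i h, mul_zero]
      · intro h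
        exact absurd (Finset.mem_univ i) h
  one_mem' := by
    constructor
    · intro i j hij
      rw [Units.val_one, one_apply_ne hij.ne']
    · intro i
      rw [Units.val_one, one_apply_eq]
  inv_mem' := by
    rintro a ⟨ha, ha'⟩
    have hT : BlockTriangular a.val id := fun i j hij => ha i j hij
    have : Invertible a.val := a.isUnit.invertible
    have e1 : (a⁻¹).val = (a.val)⁻¹ := (coe_units_inv a).symm ▸ rfl
    have hT' : BlockTriangular (a⁻¹).val id := by
      rw [e1]
      exact blockTriangular_inv_of_blockTriangular hT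
    constructor
    · intro i j hij
      exact hT' hij
    · intro i
      have h1 : (a⁻¹).val * a.val = 1 := by
        rw [← Units.val_mul, inv_mul_cancel, Units.val_one]
      have h2 := congrFun (congrFun h1 i) i
      rw [mul_apply, one_apply_eq, Finset.sum_eq_single i] at h2
      · rwa [ha', mul_one] at h2
      · intro k _ hk
        rcases lt_or_gt_of_ne hk with h | h
        · rw [hT' h, zero_mul]
        · rw [ha k i h, mul_zero]
      · intro h
        exact absurd (Finset.mem_univ i) h

/-- `nil n F` is the space of strictly upper triangular matrices. -/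
def nil (n : ℕ) (F : Type) [Field F] : Submodule F (Matrix (Fin n) (Fin n) F) where
  carrier := {y | ∀ i j, j ≤ i → y i j = 0}
  add_mem' := by
    intro a b ha hb i j hij
    rw [Matrix.add_apply, ha i j hij, hb i j hij, add_zero]
  zero_mem' := by
    intro i j _
    rfl
  smul_mem' := by
    intro c a ha i j hij
    rw [Matrix.smul_apply, ha i j hij, smul_zero]

variable {n : ℕ} {F : Type} [Field F]

lemma U_below (g : U n F) {i j : Fin n} (h : j < i) : g.1.val i j = 0 := g.2.1 i j h

lemma U_diag (g : U n F) (i : Fin n) : g.1.val i i = 1 := g.2.2 i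

lemma nil_zero (y : nil n F) {i j : Fin n} (h : j ≤ i) : y.1 i j = 0 := y.2 i j h

lemma mul_mem_nil_left {a y : Matrix (Fin n) (Fin n) F} (ha : ∀ i j, j < i → a i j = 0)
    (hy : y ∈ nil n F) : a * y ∈ nil n F := by
  intro i j hij
  rw [mul_apply]
  refine Finset.sum_eq_zero fun k _ => ?_
  rcases lt_or_ge k i with h | h
  · rw [ha i k h, zero_mul]
  · rw [hy k j (le_trans hij h), mul_zero]

lemma mul_mem_nil_right {a y : Matrix (Fin n) (Fin n) F} (ha : ∀ i j, j < i → a i j = 0)
    (hy : y ∈ nil n F) : y * a ∈ nil n F := by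
  intro i j hij
  rw [mul_apply]
  refine Finset.sum_eq_zero fun k _ => ?_
  rcases lt_or_ge j k with h | h
  · rw [ha k j h, mul_zero]
  · rw [hy i k (le_trans h hij), zero_mul]

/-- The linear map `y ↦ u y v` on the strictly upper triangular matrices. -/
def bi (u v : U n F) : nil n F →ₗ[F] nil n F where
  toFun y := ⟨u.1.val * y.1 * v.1.val, mul_mem_nil_right v.2.1 (mul_mem_nil_left u.2.1 y.2)⟩
  map_add' x y := by
    apply Subtype.ext
    change u.1.val * (x.1 + y.1) * v.1.val = u.1.val * x.1 * v.1.val + u.1.val * y.1 * v.1.val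
    rw [mul_add, add_mul]
  map_smul' c x := by
    apply Subtype.ext
    change u.1.val * (c • x.1) * v.1.val = c • (u.1.val * x.1 * v.1.val)
    rw [mul_smul_comm, smul_mul_assoc]

lemma bi_val (u v : U n F) (y : nil n F) : (bi u v y).1 = u.1.val * y.1 * v.1.val := rfl

lemma bi_bi (u v u' v' : U n F) (y : nil n F) : bi u v (bi u' v' y) = bi (u * u') (v' * v) y := by
  apply Subtype.ext
  rw [bi_val, bi_val, bi_val, Subgroup.coe_mul, Subgroup.coe_mul, Units.val_mul, Units.val_mul]
  simp only [mul_assoc]

lemma bi_comp (u v u' v' : U n F) : bi u v ∘ₗ bi u' v' = bi (u * u') (v' * v) := by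
  ext1 y
  exact bi_bi u v u' v' y

lemma bi_one : bi (1 : U n F) 1 = LinearMap.id := by
  ext1 y
  apply Subtype.ext
  rw [bi_val, OneMemClass.coe_one, Units.val_one, one_mul, mul_one]
  rfl

/-- The matrix `g - 1` for `g` in `U`. -/
def lg (g : U n F) : nil n F := ⟨g.1.val - 1, by
  intro i j hij
  rcases hij.lt_or_eq with h | h
  · rw [Matrix.sub_apply, U_below g h, one_apply_ne h.ne', sub_zero]
  · subst h
    rw [Matrix.sub_apply, U_diag, one_apply_eq, sub_self]⟩

lemma lg_val (g : U n F) : (lg g).1 = g.1.val - 1 := rfl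

lemma lg_one : lg (1 : U n F) = 0 := by
  apply Subtype.ext
  rw [lg_val, OneMemClass.coe_one, Units.val_one, sub_self]
  rfl

lemma lg_injective : Function.Injective (lg : U n F → nil n F) := by
  intro a b h
  have h1 := congrArg Subtype.val h
  rw [lg_val, lg_val] at h1
  exact Subtype.ext (Units.ext (sub_left_injective h1))

lemma lg_surjective : Function.Surjective (lg : U n F → nil n F) := by
  intro y
  have hT : (1 + y.1).BlockTriangular id := by
    intro i j hij
    have hij' : j < i := hij
    rw [Matrix.add_apply, Matrix.one_apply_ne hij'.ne', nil_zero y hij'.le, add_zero]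
  have hd : (1 + y.1).det = 1 := by
    rw [det_of_isUpperTriangular hT]
    refine Finset.prod_eq_one fun i _ => ?_
    rw [Matrix.add_apply, one_apply_eq, nil_zero y le_rfl, add_zero]
  have hu : IsUnit (1 + y.1) := by
    rw [isUnit_iff_isUnit_det, hd]
    exact isUnit_one
  obtain ⟨g, hg⟩ := hu
  refine ⟨⟨g, ?_, ?_⟩, ?_⟩
  · intro i j hij
    rw [hg]
    exact hT hij
  · intro i
    rw [hg, Matrix.add_apply, one_apply_eq, nil_zero y le_rfl, add_zero]
  · apply Subtype.ext
    rw [lg_val]
    change g.val - 1 = y.1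
    rw [hg, add_sub_cancel_left]

/-- `g ↦ g - 1` is a bijection. -/
noncomputable def lgEquiv : U n F ≃ nil n F := Equiv.ofBijective lg ⟨lg_injective, lg_surjective⟩

lemma lg_mul (g h : U n F) : lg (g * h) = bi 1 h (lg g) + lg h := by
  apply Subtype.ext
  change (g * h).1.val - 1 = (bi 1 h (lg g)).1 + (lg h).1
  rw [bi_val, lg_val, lg_val, OneMemClass.coe_one, Units.val_one, one_mul, Subgroup.coe_mul,
    Units.val_mul, sub_mul, one_mul]
  abel

lemma lg_mul' (g h : U n F) : lg (g * h) = bi g 1 (lg h) + lg g := by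
  apply Subtype.ext
  change (g * h).1.val - 1 = (bi g 1 (lg h)).1 + (lg g).1
  rw [bi_val, lg_val, lg_val, OneMemClass.coe_one, Units.val_one, mul_one, Subgroup.coe_mul,
    Units.val_mul, mul_sub, mul_one]
  abel

lemma lg_conj (w g : U n F) : lg (w * g * w⁻¹) = bi w w⁻¹ (lg g) := by
  apply Subtype.ext
  rw [bi_val, lg_val, lg_val]
  have h1 : w.1.val * (w⁻¹).1.val = 1 := by
    rw [← Units.val_mul, ← Subgroup.coe_mul, mul_inv_cancel]
    rfl
  have h2 : (w * g * w⁻¹).1.val = w.1.val * g.1.val * (w⁻¹).1.val := by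
    rw [Subgroup.coe_mul, Subgroup.coe_mul, Units.val_mul, Units.val_mul]
  rw [mul_sub, sub_mul, mul_one, h1, h2]

instance [Finite F] : Finite (U n F) := by
  have : Finite (Matrix (Fin n) (Fin n) F) := inferInstanceAs (Finite (Fin n → Fin n → F))
  infer_instance

instance [Finite F] : Finite (nil n F) := by
  have : Finite (Matrix (Fin n) (Fin n) F) := inferInstanceAs (Finite (Fin n → Fin n → F))
  infer_instance

instance [Finite F] : Finite (Dual F (nil n F)) := by
  have : Finite (nil n F →ₗ[F] F) := DFunLike.finite _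
  exact this

/-- The two-sided orbit `U λ U` of a functional `λ`, where `(u λ v) (y) = λ (u y v)`. -/
def orb (lam : Dual F (nil n F)) : Set (Dual F (nil n F)) :=
  {mu | ∃ u v : U n F, mu = lam ∘ₗ bi u v}

/-- The superclass relation of André: `h - 1 = u (g - 1) v` for some `u, v` in `U`. -/
def superclass : Setoid (U n F) where
  r g h := ∃ u v : U n F, lg h = bi u v (lg g)
  iseqv := {
    refl := fun g => ⟨1, 1, by rw [bi_one]; rfl⟩
    symm := by
      rintro g h ⟨u, v, e⟩
      refine ⟨u⁻¹, v⁻¹, ?_⟩
      rw [e, bi_bi, inv_mul_cancel, mul_inv_cancel, bi_one]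
      rfl
    trans := by
      rintro g h k ⟨u, v, e⟩ ⟨u', v', e'⟩
      refine ⟨u' * u, v * v', ?_⟩
      rw [e', e, bi_bi] }

lemma superclass_iff (g h : U n F) : superclass g h ↔ ∃ u v : U n F, lg h = bi u v (lg g) := Iff.rfl

/-- The functional `y ↦ a y_{ij}`. -/
def box (i j : Fin n) (a : F) : Dual F (nil n F) where
  toFun y := a * y.1 i j
  map_add' x y := by
    change a * (x.1 + y.1) i j = _
    rw [Matrix.add_apply, mul_add]
  map_smul' c x := by
    change a * (c • x.1) i j = _
    rw [Matrix.smul_apply, smul_eq_mul, RingHom.id_apply, smul_eq_mul]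
    ring

lemma box_apply (i j : Fin n) (a : F) (y : nil n F) : box i j a y = a * y.1 i j := rfl

lemma self_mem_orb (lam : Dual F (nil n F)) : lam ∈ orb lam := ⟨1, 1, by rw [bi_one]; rfl⟩

lemma orb_comp (lam : Dual F (nil n F)) (u v : U n F) : orb (lam ∘ₗ bi u v) = orb lam := by
  ext mu
  constructor
  · rintro ⟨u', v', rfl⟩
    exact ⟨u * u', v' * v, by rw [LinearMap.comp_assoc, bi_comp]⟩
  · rintro ⟨u', v', rfl⟩
    refine ⟨u⁻¹ * u', v' * v⁻¹, ?_⟩
    rw [LinearMap.comp_assoc, bi_comp]
    congr 2
    · group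
    · group

/-- The equivalence relation of lying in the same two-sided orbit. -/
def sameOrb : Setoid (Dual F (nil n F)) where
  r lam mu := orb lam = orb mu
  iseqv := ⟨fun _ => rfl, fun h => h.symm, fun h h' => h.trans h'⟩

lemma mem_orb_iff (lam mu : Dual F (nil n F)) : mu ∈ orb lam ↔ orb lam = orb mu := by
  constructor
  · rintro ⟨u, v, rfl⟩
    rw [orb_comp]
  · intro h
    rw [h]
    exact self_mem_orb mu

end Pool.Agent.D0H73.SC
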