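import Pool.Agent.D0H73.SC.Fourier

/-!
# Irreducible characters of `U` and the two-sided orbits
-/

set_option autoImplicit false
set_option linter.unusedSectionVars false

open Matrix Module
open Pool.Agent.Helper884.IC (IsIrrChar B IsClass Top_zero_of_irr Irr mem_Irr expand B_irr
  B_sub_left B_smul_left cardG_ne isClass_char B_comm)

namespace Pool.Agent.D0H73.SC

section General

variable {G : Type} [Group G] [Fintype G]

/-- the function which is one at `1` and zero elsewhere -/
noncomputable def delta (G : Type) [Group G] (g : G) : ℂ := by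
  classical exact if g = 1 then 1 else 0

lemma delta_class : IsClass (delta G) := by
  intro g y
  unfold delta
  congr 1
  rw [conj_eq_one_iff]

lemma B_delta (f : G → ℂ) : B (delta G) f = (Nat.card G : ℂ)⁻¹ * f 1 := by
  classical
  unfold B
  congr 1
  rw [Finset.sum_eq_single 1]
  · rw [inv_one]
    unfold delta
    rw [if_pos rfl, one_mul]
  · intro g _ hg
    unfold delta
    rw [if_neg hg, zero_mul]
  · intro h
    exact absurd (Finset.mem_univ _) h

lemma irr_one {chi : G → ℂ} (h : IsIrrChar chi) : ∃ d : ℕ, 0 < d ∧ chi 1 = d := by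
  obtain ⟨V, _, _, _, rho, hr, rfl⟩ := h
  refine ⟨Module.finrank ℂ V, ?_, rho.char_one⟩
  have h1 : Nontrivial (Subrepresentation rho) := hr.toNontrivial
  have h2 : Nontrivial V := by
    by_contra h3
    rw [not_nontrivial_iff_subsingleton] at h3
    obtain ⟨a, b, hab⟩ := h1
    apply hab
    apply SetLike.ext
    intro x
    have hx : x = 0 := Subsingleton.elim _ _
    rw [hx]
    exact ⟨fun _ => b.toSubmodule.zero_mem, fun _ => a.toSubmodule.zero_mem⟩
  exact Module.finrank_pos

lemma irr_one_ne {chi : G → ℂ} (h : IsIrrChar chi) : chi 1 ≠ 0 := by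
  obtain ⟨d, hd, h1⟩ := irr_one h
  rw [h1]
  exact_mod_cast hd.ne'

/-- convolution of an irreducible character with a class function -/
lemma conv {chi : G → ℂ} (h : IsIrrChar chi) (f : G → ℂ) (hf : IsClass f) (x : G) :
    ∑ y, chi (x * y⁻¹) * f y = (Nat.card G * B f chi / chi 1) * chi x := by
  have h1 := irr_one_ne h
  have h2 : (Nat.card G : ℂ) ≠ 0 := cardG_ne
  obtain ⟨V, _, _, _, rho, hr, rfl⟩ := h
  set c : ℂ := Nat.card G * B f rho.character / rho.character 1 with hc
  have h3 : IsClass (f - c • delta G) := by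
    intro g y
    rw [Pi.sub_apply, Pi.sub_apply, Pi.smul_apply, Pi.smul_apply, hf, delta_class]
  have h4 : B (f - c • delta G) rho.character = 0 := by
    rw [B_sub_left, B_smul_left, B_delta, hc]
    field_simp
    ring
  have h5 := Top_zero_of_irr rho _ h3 h4
  have h6 : Pool.Agent.Helper884.IC.Top rho f = c • (1 : Module.End ℂ V) := by
    have h7 : Pool.Agent.Helper884.IC.Top rho (f - c • delta G) = Pool.Agent.Helper884.IC.Top rho f -
        c • Pool.Agent.Helper884.IC.Top rho (delta G) := by
      unfold Pool.Agent.Helper884.IC.Top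
      rw [Finset.smul_sum, ← Finset.sum_sub_distrib]
      refine Finset.sum_congr rfl fun g _ => ?_
      rw [Pi.sub_apply, Pi.smul_apply, sub_smul, smul_assoc]
    have h8 : Pool.Agent.Helper884.IC.Top rho (delta G) = 1 := by
      classical
      unfold Pool.Agent.Helper884.IC.Top
      rw [Finset.sum_eq_single 1]
      · unfold delta
        rw [if_pos rfl, one_smul, inv_one, map_one]
      · intro g _ hg
        unfold delta
        rw [if_neg hg, zero_smul]
      · intro h
        exact absurd (Finset.mem_univ _) h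
    rw [h7, h8, sub_eq_zero] at h5
    exact h5
  have h9 := congrArg (fun T => LinearMap.trace ℂ V (rho x * T)) h6
  rw [mul_smul_comm, mul_one, map_smul, Pool.Agent.Helper884.IC.Top, Finset.mul_sum, map_sum] at h9
  rw [smul_eq_mul] at h9
  change _ = c * LinearMap.trace ℂ V (rho x)
  rw [← h9]
  refine Finset.sum_congr rfl fun g _ => ?_
  rw [mul_smul_comm, map_smul, smul_eq_mul, mul_comm, ← map_mul]
  rfl

end General

variable {n : ℕ} {F : Type} [Field F] [Finite F]

lemma lg_inv_mul (y x : U n F) : lg (y⁻¹ * x) = bi y⁻¹ 1 (lg x + -lg y) := by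
  have h1 : lg y⁻¹ = - bi y⁻¹ 1 (lg y) := by
    have h2 := lg_mul' y⁻¹ y
    rw [inv_mul_cancel, lg_one] at h2
    rw [eq_neg_iff_add_eq_zero, add_comm]
    exact h2.symm
  rw [lg_mul', h1, map_add, map_neg]

noncomputable instance : Fintype (U n F) := Fintype.ofFinite _
noncomputable instance : Fintype (nil n F) := Fintype.ofFinite _
noncomputable instance : Fintype (Dual F (nil n F)) := Fintype.ofFinite _

open scoped Classical in
/-- the orbit sum -/
noncomputable def fO (th : AddChar F ℂ) (lam : Dual F (nil n F)) (g : U n F) : ℂ :=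
  ∑ mu : Dual F (nil n F), if mu ∈ orb lam then pr th mu (lg g) else 0

open scoped Classical in
lemma sum_orb_comp (lam : Dual F (nil n F)) (u v : U n F) (f : Dual F (nil n F) → ℂ) :
    ∑ mu : Dual F (nil n F), (if mu ∈ orb lam then f (mu ∘ₗ bi u v) else 0) =
      ∑ mu : Dual F (nil n F), if mu ∈ orb lam then f mu else 0 := by
  conv_rhs => rw [← Equiv.sum_comp (dualPerm u v)]
  refine Finset.sum_congr rfl fun mu _ => ?_
  rw [dualPerm_apply]
  congr 1
  rw [mem_orb_iff, mem_orb_iff, orb_comp]

open scoped Classical in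
lemma fO_bi (th : AddChar F ℂ) (lam : Dual F (nil n F)) (g h : U n F) (u v : U n F)
    (e : lg h = bi u v (lg g)) : fO th lam h = fO th lam g := by
  unfold fO
  rw [← sum_orb_comp lam u v (fun mu => pr th mu (lg g))]
  refine Finset.sum_congr rfl fun mu _ => ?_
  rw [e, pr_comp]

lemma fO_superclass (th : AddChar F ℂ) (lam : Dual F (nil n F)) {g h : U n F}
    (e : superclass g h) : fO th lam g = fO th lam h := by
  obtain ⟨u, v, e⟩ := e
  exact (fO_bi th lam g h u v e).symm

lemma fO_class (th : AddChar F ℂ) (lam : Dual F (nil n F)) : IsClass (fO th lam) := by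
  intro g y
  exact fO_bi th lam g _ y y⁻¹ (lg_conj y g)

lemma fO_congr (th : AddChar F ℂ) {lam mu : Dual F (nil n F)} (h : orb lam = orb mu) :
    fO th lam = fO th mu := by
  unfold fO
  rw [h]

open scoped Classical in
lemma fO_key (th : AddChar F ℂ) (lam : Dual F (nil n F)) (y x : U n F) :
    fO th lam (y⁻¹ * x) = ∑ mu : Dual F (nil n F),
      if mu ∈ orb lam then pr th mu (lg x) * pr th mu (-lg y) else 0 := by
  unfold fO
  rw [← sum_orb_comp lam y⁻¹ 1 (fun mu => pr th mu (lg x) * pr th mu (-lg y))]
  refine Finset.sum_congr rfl fun mu _ => ?_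
  rw [lg_inv_mul, ← pr_add, pr_comp]

/-- the Fourier coefficients of a function -/
noncomputable def cf (th : AddChar F ℂ) (chi : U n F → ℂ) (mu : Dual F (nil n F)) : ℂ :=
  ∑ g, chi g * pr th mu (-lg g)

lemma sum_lg (f : nil n F → ℂ) : ∑ g : U n F, f (lg g) = ∑ y, f y :=
  Equiv.sum_comp (lgEquiv (n := n) (F := F)) f

variable {th : AddChar F ℂ} (hth : th ≠ 1)

include hth in
lemma inversion (chi : U n F → ℂ) (x : U n F) :
    ∑ mu, cf th chi mu * pr th mu (lg x) = Nat.card (nil n F) * chi x := by
  classical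
  unfold cf
  simp only [Finset.sum_mul]
  rw [Finset.sum_comm]
  have h1 : ∀ g : U n F, ∑ mu : Dual F (nil n F), chi g * pr th mu (-lg g) * pr th mu (lg x) =
      if g = x then Nat.card (nil n F) * chi x else 0 := by
    intro g
    have h2 := orth_dual hth (lg x) (lg g)
    have h3 : ∑ mu : Dual F (nil n F), chi g * pr th mu (-lg g) * pr th mu (lg x) =
        chi g * ∑ mu : Dual F (nil n F), pr th mu (lg x) * pr th mu (-lg g) := by
      rw [Finset.mul_sum]
      refine Finset.sum_congr rfl fun mu _ => ?_
      ring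
    rw [h3, h2]
    by_cases h : g = x
    · rw [if_pos (by rw [h]), if_pos h, h, card_dual_eq, mul_comm]
    · rw [if_neg (fun h' => h (lg_injective h').symm), if_neg h, mul_zero]
  simp only [h1]
  rw [Finset.sum_ite_eq' Finset.univ x]
  rw [if_pos (Finset.mem_univ _)]

include hth in
open scoped Classical in
lemma eigen {chi : U n F → ℂ} (h : IsIrrChar chi) (lam nu : Dual F (nil n F)) :
    B (fO th lam) chi / chi 1 * cf th chi nu = if nu ∈ orb lam then cf th chi nu else 0 := by
  have h1 : ∀ x, ∑ mu : Dual F (nil n F),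
      (if mu ∈ orb lam then cf th chi mu * pr th mu (lg x) else 0) =
      Nat.card (nil n F) * B (fO th lam) chi / chi 1 * chi x := by
    intro x
    have h2 := conv h (fO th lam) (fO_class th lam) x
    have h3 : ∑ y, chi (x * y⁻¹) * fO th lam y = ∑ y, chi y * fO th lam (y⁻¹ * x) := by
      refine Fintype.sum_equiv ((Equiv.inv (U n F)).trans (Equiv.mulLeft x)) _ _ fun y => ?_
      change chi (x * y⁻¹) * fO th lam y = chi (x * y⁻¹) * fO th lam ((x * y⁻¹)⁻¹ * x)
      congr 2
      group
    rw [h3, card_U] at h2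
    rw [← h2]
    simp only [fO_key, Finset.mul_sum]
    rw [Finset.sum_comm]
    refine Finset.sum_congr rfl fun mu _ => ?_
    by_cases hm : mu ∈ orb lam
    · simp only [if_pos hm]
      unfold cf
      rw [Finset.sum_mul]
      refine Finset.sum_congr rfl fun y _ => ?_
      ring
    · simp only [if_neg hm, mul_zero, Finset.sum_const_zero]
  have h4 : ∑ x, (∑ mu : Dual F (nil n F),
      (if mu ∈ orb lam then cf th chi mu * pr th mu (lg x) else 0)) * pr th nu (-lg x) =
      Nat.card (nil n F) * B (fO th lam) chi / chi 1 * cf th chi nu := by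
    simp only [h1]
    unfold cf
    rw [Finset.mul_sum]
    refine Finset.sum_congr rfl fun y _ => ?_
    ring
  have h5 : ∑ x, (∑ mu : Dual F (nil n F),
      (if mu ∈ orb lam then cf th chi mu * pr th mu (lg x) else 0)) * pr th nu (-lg x) =
      if nu ∈ orb lam then Nat.card (nil n F) * cf th chi nu else 0 := by
    simp only [Finset.sum_mul]
    rw [Finset.sum_comm]
    have h6 : ∀ mu : Dual F (nil n F), ∑ x : U n F,
        (if mu ∈ orb lam then cf th chi mu * pr th mu (lg x) else 0) * pr th nu (-lg x) =
        if mu = nu then (if nu ∈ orb lam then Nat.card (nil n F) * cf th chi nu else 0) else 0 := by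
      intro mu
      by_cases hm : mu ∈ orb lam
      · simp only [if_pos hm, mul_assoc]
        rw [← Finset.mul_sum, sum_lg (fun y => pr th mu y * pr th nu (-y)), orth_nil hth]
        by_cases h7 : mu = nu
        · subst h7
          rw [if_pos rfl, if_pos rfl, if_pos hm, mul_comm]
        · rw [if_neg h7, if_neg h7, mul_zero]
      · simp only [if_neg hm, zero_mul, Finset.sum_const_zero]
        by_cases h7 : mu = nu
        · subst h7
          rw [if_pos rfl, if_neg hm]
        · rw [if_neg h7]
    simp only [h6]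
    rw [Finset.sum_ite_eq' Finset.univ nu, if_pos (Finset.mem_univ _)]
  have h8 : (Nat.card (nil n F) : ℂ) ≠ 0 := by exact_mod_cast Nat.card_pos.ne'
  rw [h4] at h5
  apply mul_left_cancel₀ h8
  have h9 : (Nat.card (nil n F) : ℂ) * (B (fO th lam) chi / chi 1 * cf th chi nu) =
      Nat.card (nil n F) * B (fO th lam) chi / chi 1 * cf th chi nu := by ring
  rw [h9, h5]
  split_ifs
  · rfl
  · rw [mul_zero]

include hth in
lemma exists_cf {chi : U n F → ℂ} (h : IsIrrChar chi) : ∃ nu, cf th chi nu ≠ 0 := by
  by_contra hcon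
  push Not at hcon
  have h1 := inversion hth chi 1
  simp only [hcon, zero_mul, Finset.sum_const_zero] at h1
  have h8 : (Nat.card (nil n F) : ℂ) ≠ 0 := by exact_mod_cast Nat.card_pos.ne'
  rcases mul_eq_zero.1 h1.symm with h2 | h2
  · exact h8 h2
  · exact irr_one_ne h h2

include hth in
lemma B_of_mem {chi : U n F → ℂ} (h : IsIrrChar chi) {lam nu : Dual F (nil n F)}
    (h1 : cf th chi nu ≠ 0) (h2 : nu ∈ orb lam) : B (fO th lam) chi = chi 1 := by
  classical
  have h3 := eigen hth h lam nu
  rw [if_pos h2] at h3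
  have h4 := irr_one_ne h
  have h5 : B (fO th lam) chi / chi 1 = 1 := by
    apply mul_right_cancel₀ h1
    rw [h3, one_mul]
  rwa [div_eq_one_iff_eq h4] at h5

include hth in
lemma B_of_not_mem {chi : U n F → ℂ} (h : IsIrrChar chi) {lam nu : Dual F (nil n F)}
    (h1 : cf th chi nu ≠ 0) (h2 : nu ∉ orb lam) : B (fO th lam) chi = 0 := by
  classical
  have h3 := eigen hth h lam nu
  rw [if_neg h2] at h3
  have h4 := irr_one_ne h
  have h5 := (mul_eq_zero.1 h3).resolve_right h1
  exact (div_eq_zero_iff.1 h5).resolve_right h4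

/-- The irreducible characters of `G`, as a type. -/
abbrev IrrC (G : Type) [Group G] : Type := {chi : G → ℂ // IsIrrChar chi}

/-- the orbit of an irreducible character -/
noncomputable def Phi (chi : IrrC (U n F)) : Quotient (sameOrb (n := n) (F := F)) :=
  ⟦(exists_cf hth chi.2).choose⟧

lemma Phi_of_cf (chi : IrrC (U n F)) {nu : Dual F (nil n F)} (h : cf th chi.1 nu ≠ 0) :
    Phi hth chi = ⟦nu⟧ := by
  have h0 := (exists_cf hth chi.2).choose_spec
  set nu0 := (exists_cf hth chi.2).choose with hnu0
  have h1 : nu0 ∈ orb nu := by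
    by_contra h2
    have h3 := B_of_not_mem hth chi.2 h0 h2
    rw [B_of_mem hth chi.2 h (self_mem_orb nu)] at h3
    exact irr_one_ne chi.2 h3
  exact (Quotient.sound ((mem_orb_iff nu nu0).1 h1)).symm

lemma B_fO (chi : IrrC (U n F)) (lam : Dual F (nil n F)) :
    B (fO th lam) chi.1 = (by classical exact if Phi hth chi = ⟦lam⟧ then chi.1 1 else 0) := by
  classical
  have h0 := (exists_cf hth chi.2).choose_spec
  set nu0 := (exists_cf hth chi.2).choose with hnu0
  have h3 : Phi hth chi = ⟦nu0⟧ := rfl
  rw [h3]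
  by_cases h : nu0 ∈ orb lam
  · rw [B_of_mem hth chi.2 h0 h, if_pos (Quotient.sound ((mem_orb_iff lam nu0).1 h)).symm]
  · rw [B_of_not_mem hth chi.2 h0 h, if_neg]
    intro h2
    exact h ((mem_orb_iff lam nu0).2 (Quotient.exact h2.symm))

lemma fO_one (lam : Dual F (nil n F)) : ∃ d : ℕ, 0 < d ∧ fO th lam 1 = d := by
  classical
  refine ⟨(Finset.univ.filter fun mu => mu ∈ orb lam).card, ?_, ?_⟩
  · exact Finset.card_pos.2 ⟨lam, by simp [self_mem_orb]⟩
  · unfold fO
    simp only [lg_one, pr_zero_right]
    rw [Finset.sum_boole]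

noncomputable instance : Fintype (IrrC (U n F)) := by
  have : Finite (IrrC (U n F)) := (Pool.Agent.Helper884.IC.irr_finite (G := U n F)).to_subtype
  exact Fintype.ofFinite _

open scoped Classical in
lemma fO_expand (lam : Dual F (nil n F)) (g : U n F) :
    fO th lam g = ∑ chi : IrrC (U n F), if Phi hth chi = ⟦lam⟧ then chi.1 1 * chi.1 g else 0 := by
  have h1 := congrFun (expand (fO th lam) (fO_class th lam)) g
  rw [Finset.sum_apply] at h1
  rw [h1]
  rw [Finset.sum_subtype (Irr (U n F)) (fun x => mem_Irr)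
    (fun chi => (B (fO th lam) chi • chi) g)]
  refine Finset.sum_congr rfl fun chi _ => ?_
  rw [Pi.smul_apply, smul_eq_mul, B_fO hth chi lam]
  split_ifs
  · rfl
  · rw [zero_mul]

lemma Phi_surjective : Function.Surjective (Phi hth (n := n)) := by
  classical
  intro q
  induction q using Quotient.inductionOn with | h lam =>
  by_contra hcon
  push Not at hcon
  have h1 := fO_expand hth lam 1
  obtain ⟨d, hd, h2⟩ := fO_one (th := th) lam
  rw [h2, Finset.sum_eq_zero] at h1
  · have : d = 0 := by exact_mod_cast h1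
    omega
  · intro chi _
    rw [if_neg (hcon chi)]

end Pool.Agent.D0H73.SC
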