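import Pool.Agent.D0H73.SC.Chars

/-!
# The single-box characters separate the superclasses
-/

set_option autoImplicit false
set_option linter.unusedSectionVars false

open Matrix Module

namespace Pool.Agent.D0H73.SC

variable {n : ℕ} {F : Type} [Field F]

/-- the strictly upper triangular matrix with one entry -/
def sg (i j : Fin n) (h : i < j) (c : F) : nil n F := ⟨Matrix.single i j c, by
  intro l k hkl
  rw [Matrix.single_apply, if_neg]
  rintro ⟨rfl, rfl⟩
  exact absurd h (not_lt.2 hkl)⟩

lemma sg_val (i j : Fin n) (h : i < j) (c : F) : (sg i j h c).1 = Matrix.single i j c := rfl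

/-- the elementary unitriangular matrix -/
noncomputable def el (i j : Fin n) (h : i < j) (c : F) : U n F :=
  (lg_surjective (sg i j h c)).choose

lemma el_val (i j : Fin n) (h : i < j) (c : F) : (el i j h c).1.val = 1 + Matrix.single i j c := by
  have h1 := congrArg Subtype.val (lg_surjective (sg i j h c)).choose_spec
  exact sub_eq_iff_eq_add'.1 h1

lemma bi_el_left (i j : Fin n) (h : i < j) (c : F) (y : nil n F) (l k : Fin n) :
    (bi (el i j h c) 1 y).1 l k = y.1 l k + if l = i then c * y.1 j k else 0 := by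
  rw [bi_val, el_val, OneMemClass.coe_one, Units.val_one, mul_one, add_mul, one_mul,
    Matrix.add_apply]
  congr 1
  by_cases hl : l = i
  · subst hl
    rw [if_pos rfl, Matrix.single_mul_apply_same]
  · rw [if_neg hl, Matrix.single_mul_apply_of_ne _ _ _ _ _ hl]

lemma bi_el_right (i j : Fin n) (h : i < j) (c : F) (y : nil n F) (l k : Fin n) :
    (bi 1 (el i j h c) y).1 l k = y.1 l k + if k = j then y.1 l i * c else 0 := by
  rw [bi_val, el_val, OneMemClass.coe_one, Units.val_one, one_mul, mul_add, mul_one,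
    Matrix.add_apply]
  congr 1
  by_cases hl : k = j
  · subst hl
    rw [if_pos rfl, Matrix.mul_single_apply_same]
  · rw [if_neg hl, Matrix.mul_single_apply_of_ne _ _ _ _ _ hl]

/-- at most one nonzero entry in each row and column -/
def IsBasic (x : nil n F) : Prop :=
  (∀ i j k, x.1 i j ≠ 0 → x.1 i k ≠ 0 → j = k) ∧ ∀ i j k, x.1 i k ≠ 0 → x.1 j k ≠ 0 → i = j

/-- the rank of a position -/
def ep (p : Fin n × Fin n) : ℕ := (n - 1 - p.2.val) * n + p.1.val

lemma ep_col {l l' k k' : Fin n} (h : k < k') : ep (l', k') < ep (l, k) := by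
  unfold ep
  simp only
  have h1 := l'.2
  have h2 := k'.2
  have h3 : k.val < k'.val := h
  have h4 : n - 1 - k'.val + 1 ≤ n - 1 - k.val := by omega
  have h5 := Nat.mul_le_mul_right n h4
  rw [add_mul, one_mul] at h5
  omega

lemma ep_row {l l' k : Fin n} (h : l < l') : ep (l, k) < ep (l', k) := by
  unfold ep
  simp only
  have h3 : l.val < l'.val := h
  omega

lemma ep_injective : Function.Injective (ep (n := n)) := by
  rintro ⟨l, k⟩ ⟨l', k'⟩ h
  rcases lt_trichotomy k k' with h1 | h1 | h1
  · exact absurd h (ep_col h1).ne'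
  · subst h1
    rcases lt_trichotomy l l' with h2 | h2 | h2
    · exact absurd h (ep_row h2).ne
    · rw [h2]
    · exact absurd h (ep_row h2).ne'
  · exact absurd h (ep_col h1).ne

open scoped Classical in
/-- the ranks of the nonzero entries -/
noncomputable def supp (x : nil n F) : Finset ℕ :=
  (Finset.univ.filter fun p : Fin n × Fin n => x.1 p.1 p.2 ≠ 0).image ep

lemma mem_supp (x : nil n F) (p : Fin n × Fin n) : ep p ∈ supp x ↔ x.1 p.1 p.2 ≠ 0 := by
  classical
  unfold supp
  rw [Finset.mem_image]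
  constructor
  · rintro ⟨q, hq, h⟩
    rw [ep_injective h] at hq
    exact (Finset.mem_filter.1 hq).2
  · intro h
    exact ⟨p, Finset.mem_filter.2 ⟨Finset.mem_univ _, h⟩, rfl⟩

lemma exists_of_mem_supp {x : nil n F} {b : ℕ} (h : b ∈ supp x) :
    ∃ l k : Fin n, b = ep (l, k) ∧ x.1 l k ≠ 0 := by
  classical
  unfold supp at h
  rw [Finset.mem_image] at h
  obtain ⟨q, hq, h⟩ := h
  exact ⟨q.1, q.2, h.symm, (Finset.mem_filter.1 hq).2⟩

/-- the weight -/
noncomputable def wt (x : nil n F) : ℕ := ∑ i ∈ supp x, 2 ^ i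

lemma wt_lt (x x' : nil n F) (l k : Fin n) (h1 : x.1 l k ≠ 0) (h2 : x'.1 l k = 0)
    (h3 : ∀ l' k', x'.1 l' k' ≠ 0 → x.1 l' k' = 0 → ep (l', k') < ep (l, k)) : wt x' < wt x := by
  unfold wt
  rw [Finset.geomSum_lt_geomSum_iff_toColex_lt_toColex le_rfl,
    Finset.Colex.toColex_lt_toColex_iff_exists_forall_lt]
  refine ⟨ep (l, k), (mem_supp x (l, k)).2 h1, fun h => (mem_supp x' (l, k)).1 h h2, ?_⟩
  intro b hb hb'
  obtain ⟨l', k', rfl, h4⟩ := exists_of_mem_supp hb
  refine h3 l' k' h4 ?_
  by_contra h5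
  exact hb' ((mem_supp x (l', k')).2 h5)

/-- every two-sided orbit contains a basic matrix -/
theorem exists_basic (y : nil n F) : ∃ x : nil n F, IsBasic x ∧ ∃ u v : U n F, x = bi u v y := by
  classical
  have hex : ∃ m, ∃ u v : U n F, wt (bi u v y) = m := ⟨_, 1, 1, rfl⟩
  obtain ⟨u, v, huv⟩ := Nat.find_spec hex
  have hmin : ∀ u' v' : U n F, wt (bi u v y) ≤ wt (bi u' v' y) := by
    intro u' v'
    rw [huv]
    exact Nat.find_min' hex ⟨u', v', rfl⟩
  set x := bi u v y with hx
  have hl : ∀ w : U n F, wt x ≤ wt (bi w 1 x) := by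
    intro w
    rw [hx, bi_bi]
    exact hmin _ _
  have hr : ∀ w : U n F, wt x ≤ wt (bi 1 w x) := by
    intro w
    rw [hx, bi_bi]
    exact hmin _ _
  -- pivots
  have c1 : ∀ l k, x.1 l k ≠ 0 → (∀ l', l < l' → x.1 l' k = 0) → (∀ j, j < k → x.1 l j = 0) →
      ∀ l', l' < l → x.1 l' k = 0 := by
    intro l k h0 hb ha l' hl'
    by_contra hne
    have h1 := hl (el l' l hl' (-(x.1 l' k / x.1 l k)))
    apply absurd h1
    rw [not_le]
    refine wt_lt _ _ l' k hne ?_ ?_
    · rw [bi_el_left, if_pos rfl]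
      field_simp
      ring
    · intro r s h2 h3
      rw [bi_el_left, h3, zero_add] at h2
      by_cases hr' : r = l'
      · subst hr'
        rw [if_pos rfl] at h2
        have h4 : x.1 l s ≠ 0 := fun h => h2 (by rw [h, mul_zero])
        rcases lt_trichotomy s k with h5 | h5 | h5
        · exact absurd (ha s h5) h4
        · subst h5
          exact absurd h3 hne
        · exact ep_col h5
      · rw [if_neg hr'] at h2
        exact absurd rfl h2
  have c2 : ∀ l k, x.1 l k ≠ 0 → (∀ l', l < l' → x.1 l' k = 0) → (∀ j, j < k → x.1 l j = 0) →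
      ∀ j, k < j → x.1 l j = 0 := by
    intro l k h0 hb ha j hj
    by_contra hne
    have h1 := hr (el k j hj (-(x.1 l j / x.1 l k)))
    apply absurd h1
    rw [not_le]
    refine wt_lt _ _ l j hne ?_ ?_
    · rw [bi_el_right, if_pos rfl]
      field_simp
      ring
    · intro r s h2 h3
      rw [bi_el_right, h3, zero_add] at h2
      by_cases hr' : s = j
      · subst hr'
        rw [if_pos rfl] at h2
        have h4 : x.1 r k ≠ 0 := fun h => h2 (by rw [h, zero_mul])
        rcases lt_trichotomy r l with h5 | h5 | h5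
        · exact ep_row h5
        · subst h5
          exact absurd h3 hne
        · exact absurd (hb r h5) h4
      · rw [if_neg hr'] at h2
        exact absurd rfl h2
  have piv : ∀ l k, x.1 l k ≠ 0 → (∀ l', l < l' → x.1 l' k = 0) ∧ (∀ j, j < k → x.1 l j = 0) := by
    by_contra hcon
    push Not at hcon
    let bad : Finset (Fin n × Fin n) := Finset.univ.filter fun p => x.1 p.1 p.2 ≠ 0 ∧
      ¬ ((∀ l', p.1 < l' → x.1 l' p.2 = 0) ∧ (∀ j, j < p.2 → x.1 p.1 j = 0))
    have hbad : bad.Nonempty := by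
      obtain ⟨l, k, h1, h2⟩ := hcon
      refine ⟨(l, k), Finset.mem_filter.2 ⟨Finset.mem_univ _, h1, ?_⟩⟩
      rintro ⟨h3, h4⟩
      obtain ⟨j, hj, hj'⟩ := h2 h3
      exact hj' (h4 j hj)
    obtain ⟨⟨l, k⟩, hp, hmax⟩ := Finset.exists_max_image bad ep hbad
    obtain ⟨-, h1, h2⟩ := Finset.mem_filter.1 hp
    apply h2
    have good : ∀ l' k', ep (l, k) < ep (l', k') → x.1 l' k' ≠ 0 →
        (∀ l'', l' < l'' → x.1 l'' k' = 0) ∧ (∀ j, j < k' → x.1 l' j = 0) := by
      intro l' k' h3 h4
      by_contra h5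
      have h6 := hmax (l', k') (Finset.mem_filter.2 ⟨Finset.mem_univ _, h4, h5⟩)
      omega
    constructor
    · intro l' hl'
      by_contra h3
      obtain ⟨g1, g2⟩ := good l' k (ep_row hl') h3
      exact h1 (c1 l' k h3 g1 g2 l hl')
    · intro j hj
      by_contra h3
      obtain ⟨g1, g2⟩ := good l j (ep_col hj) h3
      exact h1 (c2 l j h3 g1 g2 k hj)
  refine ⟨x, ⟨?_, ?_⟩, u, v, hx⟩
  · intro i j k h1 h2
    rcases lt_trichotomy j k with h | h | h
    · exact absurd ((piv i k h2).2 j h) h1
    · exact h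
    · exact absurd ((piv i j h1).2 k h) h2
  · intro i j k h1 h2
    rcases lt_trichotomy i j with h | h | h
    · exact absurd ((piv i k h1).1 j h) h2
    · exact h
    · exact absurd ((piv j k h2).1 i h) h1

variable [Finite F]

/-- the sum over the group `U × U` -/
noncomputable def FF (th : AddChar F ℂ) (lam : Dual F (nil n F)) (y : nil n F) : ℂ :=
  ∑ u : U n F, ∑ v : U n F, pr th lam (bi u v y)

lemma FF_bi (th : AddChar F ℂ) (lam : Dual F (nil n F)) (y : nil n F) (u v : U n F) :
    FF th lam (bi u v y) = FF th lam y := by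
  unfold FF
  simp only [bi_bi]
  rw [← Equiv.sum_comp (Equiv.mulRight u)
    (fun u' : U n F => ∑ v' : U n F, pr th lam (bi u' v' y))]
  refine Finset.sum_congr rfl fun u' _ => ?_
  rw [← Equiv.sum_comp (Equiv.mulLeft v) (fun v' : U n F => pr th lam (bi _ v' y))]
  rfl

lemma FF_orb (th : AddChar F ℂ) {lam mu : Dual F (nil n F)} (h : mu ∈ orb lam) (y : nil n F) :
    FF th mu y = FF th lam y := by
  obtain ⟨u, v, rfl⟩ := h
  unfold FF
  simp only [pr_comp, bi_bi]
  rw [← Equiv.sum_comp (Equiv.mulLeft u)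
    (fun u' : U n F => ∑ v' : U n F, pr th lam (bi u' v' y))]
  refine Finset.sum_congr rfl fun u' _ => ?_
  rw [← Equiv.sum_comp (Equiv.mulRight v) (fun v' : U n F => pr th lam (bi _ v' y))]
  rfl

lemma FF_fO (th : AddChar F ℂ) (lam : Dual F (nil n F)) :
    ∃ a b : ℂ, a ≠ 0 ∧ b ≠ 0 ∧ ∀ g : U n F, a * fO th lam g = b * FF th lam (lg g) := by
  classical
  refine ⟨(Fintype.card (U n F) : ℂ) * Fintype.card (U n F),
    ((Finset.univ.filter fun mu => mu ∈ orb lam).card : ℂ), ?_, ?_, ?_⟩
  · have : (Fintype.card (U n F) : ℂ) ≠ 0 := by exact_mod_cast Fintype.card_ne_zero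
    exact mul_ne_zero this this
  · have : (Finset.univ.filter fun mu => mu ∈ orb lam).card ≠ 0 :=
      (Finset.card_pos.2 ⟨lam, by simp [self_mem_orb]⟩).ne'
    exact_mod_cast this
  · intro g
    have h1 : ∀ u v : U n F, fO th lam g =
        ∑ mu : Dual F (nil n F), if mu ∈ orb lam then pr th mu (bi u v (lg g)) else 0 := by
      intro u v
      unfold fO
      rw [← sum_orb_comp lam u v (fun mu => pr th mu (lg g))]
      rfl
    have h2 : (Fintype.card (U n F) : ℂ) * Fintype.card (U n F) * fO th lam g =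
        ∑ u : U n F, ∑ v : U n F, fO th lam g := by
      simp only [Finset.sum_const, Finset.card_univ, nsmul_eq_mul]
      ring
    rw [h2]
    have h3 : ∑ u : U n F, ∑ v : U n F, fO th lam g = ∑ u : U n F, ∑ v : U n F,
        ∑ mu : Dual F (nil n F), if mu ∈ orb lam then pr th mu (bi u v (lg g)) else 0 :=
      Finset.sum_congr rfl fun u _ => Finset.sum_congr rfl fun v _ => h1 u v
    rw [h3]
    have h4 : ∑ u : U n F, ∑ v : U n F,
        ∑ mu : Dual F (nil n F), (if mu ∈ orb lam then pr th mu (bi u v (lg g)) else 0) =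
        ∑ mu : Dual F (nil n F), if mu ∈ orb lam then FF th mu (lg g) else 0 := by
      have h5 : ∀ u : U n F, ∑ v : U n F,
          ∑ mu : Dual F (nil n F), (if mu ∈ orb lam then pr th mu (bi u v (lg g)) else 0) =
          ∑ mu : Dual F (nil n F), ∑ v : U n F,
            (if mu ∈ orb lam then pr th mu (bi u v (lg g)) else 0) :=
        fun u => Finset.sum_comm
      simp only [h5]
      rw [Finset.sum_comm]
      refine Finset.sum_congr rfl fun mu _ => ?_
      by_cases hm : mu ∈ orb lam
      · simp only [if_pos hm]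
        rfl
      · simp only [if_neg hm, Finset.sum_const_zero]
    rw [h4]
    have h6 : ∀ mu : Dual F (nil n F), (if mu ∈ orb lam then FF th mu (lg g) else 0) =
        if mu ∈ orb lam then FF th lam (lg g) else 0 := by
      intro mu
      by_cases hm : mu ∈ orb lam
      · rw [if_pos hm, if_pos hm, FF_orb th hm]
      · rw [if_neg hm, if_neg hm]
    simp only [h6]
    rw [← Finset.sum_filter, Finset.sum_const, nsmul_eq_mul]

lemma box_bi_sg (i j : Fin n) (h : i < j) (a c : F) (u v : U n F) :
    box i j a (bi u v (sg i j h c)) = a * c := by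
  rw [box_apply, bi_val, sg_val]
  congr 1
  rw [mul_assoc, mul_apply, Finset.sum_eq_single i, U_diag, one_mul,
    Matrix.single_mul_apply_same, U_diag, mul_one]
  · intro l _ hl
    rw [Matrix.single_mul_apply_of_ne _ _ _ _ _ hl, mul_zero]
  · intro h
    exact absurd (Finset.mem_univ _) h

lemma FF_add_sg (th : AddChar F ℂ) (i j : Fin n) (h : i < j) (a c : F) (y : nil n F) :
    FF th (box i j a) (y + sg i j h c) = th (a * c) * FF th (box i j a) y := by
  unfold FF
  rw [Finset.mul_sum]
  refine Finset.sum_congr rfl fun u _ => ?_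
  rw [Finset.mul_sum]
  refine Finset.sum_congr rfl fun v _ => ?_
  rw [map_add, pr_add, mul_comm]
  congr 1
  rw [pr, box_bi_sg]

variable {th : AddChar F ℂ} (hth : th ≠ 1)

include hth in
lemma exists_mul_ne_one {a : F} (ha : a ≠ 0) : ∃ t, th (a * t) ≠ 1 := by
  obtain ⟨c, hc⟩ := exists_ne_one hth
  exact ⟨c / a, by rwa [mul_div_cancel₀ _ ha]⟩

include hth in
lemma FF_zero_left {x : nil n F} (hx : IsBasic x) (i j l : Fin n) (h : i < j) {a : F} (ha : a ≠ 0)
    (hl : i < l) (h0 : x.1 l j ≠ 0) : FF th (box i j a) x = 0 := by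
  obtain ⟨t, ht⟩ := exists_mul_ne_one hth (mul_ne_zero ha h0)
  have h1 : bi (el i l hl t) 1 x = x + sg i j h (t * x.1 l j) := by
    apply Subtype.ext
    ext r s
    rw [bi_el_left]
    change _ = (x.1 + (sg i j h (t * x.1 l j)).1) r s
    rw [sg_val, Matrix.add_apply, Matrix.single_apply]
    congr 1
    by_cases hr : r = i
    · subst hr
      rw [if_pos rfl]
      by_cases hs : j = s
      · subst hs
        rw [if_pos ⟨rfl, rfl⟩]
      · rw [if_neg (fun h => hs h.2)]
        by_cases h2 : x.1 l s = 0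
        · rw [h2, mul_zero]
        · exact absurd (hx.1 l j s h0 h2) hs
    · rw [if_neg hr, if_neg (fun h => hr h.1.symm)]
  have h2 := FF_bi th (box i j a) x (el i l hl t) 1
  rw [h1, FF_add_sg] at h2
  have h3 : (th (a * (t * x.1 l j)) - 1) * FF th (box i j a) x = 0 := by
    rw [sub_mul, one_mul, h2, sub_self]
  refine (mul_eq_zero.1 h3).resolve_left (sub_ne_zero.2 ?_)
  have h4 : a * (t * x.1 l j) = a * x.1 l j * t := by ring
  rwa [h4]

include hth in
lemma FF_zero_right {x : nil n F} (hx : IsBasic x) (i j k : Fin n) (h : i < j) {a : F}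
    (ha : a ≠ 0) (hk : k < j) (h0 : x.1 i k ≠ 0) : FF th (box i j a) x = 0 := by
  obtain ⟨t, ht⟩ := exists_mul_ne_one hth (mul_ne_zero ha h0)
  have h1 : bi 1 (el k j hk t) x = x + sg i j h (x.1 i k * t) := by
    apply Subtype.ext
    ext r s
    rw [bi_el_right]
    change _ = (x.1 + (sg i j h (x.1 i k * t)).1) r s
    rw [sg_val, Matrix.add_apply, Matrix.single_apply]
    congr 1
    by_cases hs : s = j
    · subst hs
      rw [if_pos rfl]
      by_cases hr : i = r
      · subst hr
        rw [if_pos ⟨rfl, rfl⟩]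
      · rw [if_neg (fun h => hr h.1)]
        by_cases h2 : x.1 r k = 0
        · rw [h2, zero_mul]
        · exact absurd (hx.2 i r k h0 h2) hr
    · rw [if_neg hs, if_neg (fun h => hs h.2.symm)]
  have h2 := FF_bi th (box i j a) x 1 (el k j hk t)
  rw [h1, FF_add_sg] at h2
  have h3 : (th (a * (x.1 i k * t)) - 1) * FF th (box i j a) x = 0 := by
    rw [sub_mul, one_mul, h2, sub_self]
  refine (mul_eq_zero.1 h3).resolve_left (sub_ne_zero.2 ?_)
  have h4 : a * (x.1 i k * t) = a * x.1 i k * t := by ring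
  rwa [h4]

include hth in
/-- positivity -/
lemma FF_pos (i j : Fin n) {a : F} (ha : a ≠ 0) (y : nil n F)
    (h1 : ∀ k, k ≤ j → y.1 i k = 0) (h2 : ∀ l, i ≤ l → y.1 l j = 0) :
    ∃ N : ℕ, 0 < N ∧ FF th (box i j a) y = N := by
  classical
  have key : ∀ v : U n F, ∑ u : U n F, pr th (box i j a) (bi u v y) =
      if ∀ l, i ≤ l → (bi 1 v y).1 l j = 0 then (Fintype.card (U n F) : ℂ) else 0 := by
    intro v
    have e1 : ∀ u : U n F, bi u v y = bi u 1 (bi 1 v y) := by
      intro u
      rw [bi_bi, mul_one, mul_one]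
    have e1' : ∑ u : U n F, pr th (box i j a) (bi u v y) =
        ∑ u : U n F, pr th (box i j a) (bi u 1 (bi 1 v y)) :=
      Finset.sum_congr rfl fun u _ => congrArg _ (e1 u)
    rw [e1']
    set z := bi 1 v y with hz
    have e2 : ∀ (u : U n F), box i j a (bi u 1 z) = a * ∑ l, u.1.val i l * z.1 l j := by
      intro u
      rw [box_apply, bi_val, OneMemClass.coe_one, Units.val_one, mul_one, mul_apply]
    by_cases hc : ∀ l, i ≤ l → z.1 l j = 0
    · rw [if_pos hc]
      have e3 : ∀ u : U n F, pr th (box i j a) (bi u 1 z) = 1 := by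
        intro u
        rw [pr, e2, Finset.sum_eq_zero, mul_zero, AddChar.map_zero_eq_one]
        intro l _
        rcases lt_or_ge l i with h | h
        · rw [U_below u h, zero_mul]
        · rw [hc l h, mul_zero]
      simp only [e3]
      rw [Finset.sum_const, Finset.card_univ, nsmul_eq_mul, mul_one]
    · rw [if_neg hc]
      push Not at hc
      obtain ⟨l, hl, hl'⟩ := hc
      have hne : i ≠ l := by
        rintro rfl
        apply hl'
        rw [hz, bi_val, OneMemClass.coe_one, Units.val_one, one_mul, mul_apply]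
        refine Finset.sum_eq_zero fun k _ => ?_
        rcases lt_or_ge j k with h | h
        · rw [U_below v h, mul_zero]
        · rw [h1 k h, zero_mul]
      have hil : i < l := lt_of_le_of_ne hl hne
      obtain ⟨t, ht⟩ := exists_mul_ne_one hth (mul_ne_zero ha hl')
      have e4 : ∀ u : U n F, pr th (box i j a) (bi (u * el i l hil t) 1 z) =
          th (a * z.1 l j * t) * pr th (box i j a) (bi u 1 z) := by
        intro u
        rw [pr, pr, e2, e2, ← AddChar.map_add_eq_mul]
        congr 1
        rw [mul_assoc, ← mul_add]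
        congr 1
        rw [add_comm]
        have e5 : ∀ m, (u * el i l hil t).1.val i m = u.1.val i m + if m = l then t else 0 := by
          intro m
          rw [Subgroup.coe_mul, Units.val_mul, el_val, mul_add, mul_one, Matrix.add_apply]
          congr 1
          by_cases hm : m = l
          · subst hm
            rw [if_pos rfl, Matrix.mul_single_apply_same, U_diag, one_mul]
          · rw [if_neg hm, Matrix.mul_single_apply_of_ne _ _ _ _ _ hm]
        simp only [e5, add_mul, Finset.sum_add_distrib]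
        congr 1
        simp only [ite_mul, zero_mul]
        rw [Finset.sum_ite_eq' Finset.univ l, if_pos (Finset.mem_univ _), mul_comm]
      have e6 : ∑ u : U n F, pr th (box i j a) (bi u 1 z) =
          th (a * z.1 l j * t) * ∑ u : U n F, pr th (box i j a) (bi u 1 z) := by
        conv_lhs => rw [← Equiv.sum_comp (Equiv.mulRight (el i l hil t))]
        rw [Finset.mul_sum]
        refine Finset.sum_congr rfl fun u _ => ?_
        rw [Equiv.coe_mulRight, e4]
      have e7 : (th (a * z.1 l j * t) - 1) * ∑ u : U n F, pr th (box i j a) (bi u 1 z) = 0 := by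
        rw [sub_mul, one_mul, ← e6, sub_self]
      exact (mul_eq_zero.1 e7).resolve_left (sub_ne_zero.2 ht)
  have h3 : FF th (box i j a) y = ∑ v : U n F,
      if ∀ l, i ≤ l → (bi 1 v y).1 l j = 0 then (Fintype.card (U n F) : ℂ) else 0 := by
    unfold FF
    rw [Finset.sum_comm]
    exact Finset.sum_congr rfl fun v _ => key v
  refine ⟨∑ v : U n F, if ∀ l, i ≤ l → (bi 1 v y).1 l j = 0 then Fintype.card (U n F) else 0,
    ?_, ?_⟩
  · refine Finset.sum_pos' (fun v _ => Nat.zero_le _) ⟨1, Finset.mem_univ _, ?_⟩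
    rw [if_pos]
    · exact Fintype.card_pos
    · intro l hl
      rw [bi_one]
      exact h2 l hl
  · rw [h3]
    push_cast
    rfl

include hth in
/-- the value at a basic matrix without entries to the left or below -/
lemma FF_value {x : nil n F} (i j : Fin n) (h : i < j) {a : F} (ha : a ≠ 0)
    (h1 : ∀ k, k < j → x.1 i k = 0) (h2 : ∀ l, i < l → x.1 l j = 0) :
    ∃ N : ℕ, 0 < N ∧ FF th (box i j a) x = th (a * x.1 i j) * N := by
  obtain ⟨N, hN, hN'⟩ := FF_pos hth i j ha (x - sg i j h (x.1 i j)) (by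
    intro k hk
    change (x.1 - (sg i j h (x.1 i j)).1) i k = 0
    rw [Matrix.sub_apply, sg_val, Matrix.single_apply]
    rcases hk.lt_or_eq with h3 | h3
    · rw [h1 k h3, if_neg (fun h => h3.ne' h.2), sub_zero]
    · subst h3
      rw [if_pos ⟨rfl, rfl⟩, sub_self]) (by
    intro l hl
    change (x.1 - (sg i j h (x.1 i j)).1) l j = 0
    rw [Matrix.sub_apply, sg_val, Matrix.single_apply]
    rcases hl.lt_or_eq with h3 | h3
    · rw [h2 l h3, if_neg (fun h => h3.ne h.1), sub_zero]
    · subst h3
      rw [if_pos ⟨rfl, rfl⟩, sub_self])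
  refine ⟨N, hN, ?_⟩
  rw [← hN', ← FF_add_sg th i j h, sub_add_cancel]

include hth in
/-- the box sums determine a basic matrix -/
lemma basic_eq {x x' : nil n F} (hx : IsBasic x) (hx' : IsBasic x')
    (H : ∀ (i j : Fin n) (a : F), i < j → a ≠ 0 → FF th (box i j a) x = FF th (box i j a) x') :
    x = x' := by
  have clean : ∀ {z : nil n F}, IsBasic z → ∀ i j : Fin n, i < j →
      ((∀ k, k < j → z.1 i k = 0) ∧ (∀ l, i < l → z.1 l j = 0)) ∨
      (z.1 i j = 0 ∧ ∀ a : F, a ≠ 0 → FF th (box i j a) z = 0) := by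
    intro z hz i j hij
    by_cases h1 : ∀ k, k < j → z.1 i k = 0
    · by_cases h2 : ∀ l, i < l → z.1 l j = 0
      · exact Or.inl ⟨h1, h2⟩
      · push Not at h2
        obtain ⟨l, hl, hl'⟩ := h2
        refine Or.inr ⟨?_, fun a ha => FF_zero_left hth hz i j l hij ha hl hl'⟩
        by_contra h3
        exact hl.ne (hz.2 i l j h3 hl')
    · push Not at h1
      obtain ⟨k, hk, hk'⟩ := h1
      refine Or.inr ⟨?_, fun a ha => FF_zero_right hth hz i j k hij ha hk hk'⟩
      by_contra h3
      exact hk.ne (hz.1 i k j hk' h3)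
  have hval : ∀ {z : nil n F}, IsBasic z → ∀ i j : Fin n, i < j → ∀ a : F, a ≠ 0 →
      (∀ k, k < j → z.1 i k = 0) → (∀ l, i < l → z.1 l j = 0) →
      ∃ N : ℕ, 0 < N ∧ FF th (box i j a) z = th (a * z.1 i j) * N :=
    fun _ i j hij a ha h1 h2 => FF_value hth i j hij ha h1 h2
  have nn : ∀ c : F, ‖th c‖ = 1 := fun c => AddChar.norm_apply th c
  have nz : ∀ c : F, th c ≠ 0 := by
    intro c h
    have h1 := nn c
    rw [h, norm_zero] at h1
    exact zero_ne_one h1
  apply Subtype.ext
  ext i j
  by_cases hij : i < j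
  swap
  · rw [nil_zero x (not_lt.1 hij), nil_zero x' (not_lt.1 hij)]
  rcases clean hx i j hij with ⟨h1, h2⟩ | ⟨h1, h2⟩
  · rcases clean hx' i j hij with ⟨h3, h4⟩ | ⟨h3, h4⟩
    · by_contra hne
      obtain ⟨t, ht⟩ := exists_mul_ne_one hth (sub_ne_zero.2 hne)
      have ht0 : t ≠ 0 := by
        rintro rfl
        apply ht
        rw [mul_zero, AddChar.map_zero_eq_one]
      obtain ⟨N, hN, e1⟩ := hval hx i j hij t ht0 h1 h2
      obtain ⟨N', hN', e2⟩ := hval hx' i j hij t ht0 h3 h4
      have e3 := H i j t hij ht0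
      rw [e1, e2] at e3
      have e4 := congrArg norm e3
      rw [norm_mul, norm_mul, nn, nn, one_mul, one_mul, Complex.norm_natCast,
        Complex.norm_natCast] at e4
      have e5 : N = N' := by exact_mod_cast e4
      subst e5
      have e6 : (N : ℂ) ≠ 0 := by exact_mod_cast hN.ne'
      have e7 := mul_right_cancel₀ e6 e3
      apply ht
      have e8 : (x.1 i j - x'.1 i j) * t + t * x'.1 i j = t * x.1 i j := by ring
      have e9 := AddChar.map_add_eq_mul th ((x.1 i j - x'.1 i j) * t) (t * x'.1 i j)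
      rw [e8, e7] at e9
      have e10 : (th ((x.1 i j - x'.1 i j) * t) - 1) * th (t * x'.1 i j) = 0 := by
        rw [sub_mul, one_mul, ← e9, sub_self]
      exact sub_eq_zero.1 ((mul_eq_zero.1 e10).resolve_right (nz _))
    · exfalso
      obtain ⟨N, hN, e1⟩ := hval hx i j hij 1 one_ne_zero h1 h2
      have e3 := H i j 1 hij one_ne_zero
      rw [e1, h4 1 one_ne_zero] at e3
      rcases mul_eq_zero.1 e3 with h | h
      · exact nz _ h
      · have : N = 0 := by exact_mod_cast h
        omega
  · rcases clean hx' i j hij with ⟨h3, h4⟩ | ⟨h3, h4⟩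
    · exfalso
      obtain ⟨N, hN, e1⟩ := hval hx' i j hij 1 one_ne_zero h3 h4
      have e3 := H i j 1 hij one_ne_zero
      rw [e1, h2 1 one_ne_zero] at e3
      rcases mul_eq_zero.1 e3.symm with h | h
      · exact nz _ h
      · have : N = 0 := by exact_mod_cast h
        omega
    · rw [h1, h3]

include hth in
/-- **The single-box characters separate the superclasses.** -/
theorem separation (g h : U n F)
    (H : ∀ (i j : Fin n) (a : F), i < j → a ≠ 0 → fO th (box i j a) g = fO th (box i j a) h) :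
    superclass g h := by
  obtain ⟨x, hx, u, v, e⟩ := exists_basic (lg g)
  obtain ⟨x', hx', u', v', e'⟩ := exists_basic (lg h)
  have h1 : x = x' := by
    refine basic_eq hth hx hx' fun i j a hij ha => ?_
    rw [e, e', FF_bi, FF_bi]
    obtain ⟨c, d, hc, hd, hcd⟩ := FF_fO th (box i j a) (n := n)
    have h2 := hcd g
    have h3 := hcd h
    rw [H i j a hij ha, h3] at h2
    exact (mul_left_cancel₀ hd h2).symm
  refine ⟨u'⁻¹ * u, v * v'⁻¹, ?_⟩
  have h2 : bi u'⁻¹ v'⁻¹ x' = lg h := by
    rw [e', bi_bi, inv_mul_cancel, mul_inv_cancel, bi_one]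
    rfl
  rw [← h2, ← h1, e, bi_bi]

end Pool.Agent.D0H73.SC
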