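import Pool.Agent.D0H73.SC.Theory
import Pool.Agent.D0H73.SC.Sep

/-!
# The theory of André is the coarsest theory containing the characters of the single boxes
-/

set_option autoImplicit false
set_option linter.unusedSectionVars false

open Matrix Module
open Pool.Agent.Helper884.IC (IsIrrChar B IsClass Irr mem_Irr expand B_irr
  B_sub_left B_smul_left cardG_ne isClass_char B_comm)

namespace Pool.Agent.D0H73.SC

variable {n : ℕ} {F : Type} [Field F] [Finite F] {th : AddChar F ℂ} (hth : th ≠ 1)

lemma sigma_of_contains {S : SCT (U n F)} {chi : IrrC (U n F)} (h : S.Contains chi) (g : U n F) :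
    sigma S.X chi g = chi.1 1 * chi.1 g := by
  classical
  rw [sigma_eq, Finset.sum_eq_single chi]
  · rw [if_pos]
    exact S.X.refl chi
  · intro psi _ hpsi
    rw [if_neg]
    intro h1
    exact hpsi (h psi h1)
  · intro h1
    exact absurd (Finset.mem_univ _) h1

include hth in
/-- the partition of the group -/
theorem finer_K {S : SCT (U n F)} (hS : ContainsBoxes th S) (g h : U n F) (hgh : S.K g h) :
    superclass g h := by
  apply separation hth
  intro i j a hij ha
  obtain ⟨chi, hchi⟩ := exists_boxChar hth i j a (n := n)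
  have h1 := S.const chi g h hgh
  have h2 := hS i j a hij ha chi hchi
  rw [sigma_of_contains h2, sigma_of_contains h2] at h1
  have h3 := mul_left_cancel₀ (irr_one_ne chi.2) h1
  obtain ⟨c, hc, hc'⟩ := hchi
  rw [hc', hc', orbSum_eq] at h3
  have h4 : (c : ℂ) ≠ 0 := by exact_mod_cast hc.ne'
  exact mul_left_cancel₀ h4 h3

/-- grouping a sum over the irreducible characters -/
lemma sum_group (S : SCT (U n F)) (a : Quotient S.X → ℂ) {g h : U n F} (hgh : S.K g h) :
    ∑ chi : IrrC (U n F), a ⟦chi⟧ * (chi.1 1 * chi.1 g) =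
      ∑ chi : IrrC (U n F), a ⟦chi⟧ * (chi.1 1 * chi.1 h) := by
  classical
  have : Fintype (Quotient S.X) := Fintype.ofFinite _
  have key : ∀ k : U n F, ∑ chi : IrrC (U n F), a ⟦chi⟧ * (chi.1 1 * chi.1 k) =
      ∑ q : Quotient S.X, a q * sigma S.X q.out k := by
    intro k
    rw [← Finset.sum_fiberwise (s := Finset.univ) (g := fun chi : IrrC (U n F) =>
      (⟦chi⟧ : Quotient S.X))]
    refine Finset.sum_congr rfl fun q _ => ?_
    rw [sigma_eq, Finset.mul_sum, Finset.sum_filter]
    refine Finset.sum_congr rfl fun chi _ => ?_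
    by_cases h1 : (⟦chi⟧ : Quotient S.X) = q
    · rw [if_pos h1, if_pos, h1]
      apply Quotient.exact (s := S.X)
      rw [Quotient.out_eq, h1]
    · rw [if_neg h1, if_neg, mul_zero]
      intro h2
      apply h1
      have h3 := Quotient.sound (s := S.X) h2
      rw [Quotient.out_eq] at h3
      exact h3.symm
  rw [key, key]
  exact Finset.sum_congr rfl fun q _ => by rw [S.const q.out g h hgh]

lemma B_sum_coeff (c : IrrC (U n F) → ℂ) (psi : IrrC (U n F)) :
    B (fun g => ∑ chi : IrrC (U n F), c chi * chi.1 g) psi.1 = c psi := by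
  classical
  have h1 : (fun g => ∑ chi : IrrC (U n F), c chi * chi.1 g) =
      ∑ chi : IrrC (U n F), c chi • chi.1 := by
    funext g
    rw [Finset.sum_apply]
    rfl
  have h2 : ∀ s : Finset (IrrC (U n F)), B (∑ chi ∈ s, c chi • chi.1) psi.1 =
      ∑ chi ∈ s, c chi * B chi.1 psi.1 := by
    intro s
    induction s using Finset.induction_on with
    | empty => simp [B]
    | insert a s ha ih =>
      rw [Finset.sum_insert ha, Finset.sum_insert ha, Pool.Agent.Helper884.IC.B_add_left, ih,
        B_smul_left]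
  rw [h1, h2, Finset.sum_eq_single psi]
  · rw [B_irr psi.2 psi.2, if_pos rfl, mul_one]
  · intro chi _ hne
    rw [B_irr chi.2 psi.2, if_neg, mul_zero]
    intro h
    exact hne (Subtype.ext h)
  · intro h
    exact absurd (Finset.mem_univ _) h

/-- every function which is constant on the blocks of `K` is a combination of supercharacters -/
lemma span_sigma (S : SCT (U n F)) (f : U n F → ℂ) (hf : ∀ g h, S.K g h → f g = f h) :
    ∃ a : Quotient S.X → ℂ, ∀ g, f g = ∑ chi : IrrC (U n F), a ⟦chi⟧ * (chi.1 1 * chi.1 g) := by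
  classical
  have : Fintype (Quotient S.X) := Fintype.ofFinite _
  have : Fintype (Quotient S.K) := Fintype.ofFinite _
  let L : (Quotient S.X → ℂ) →ₗ[ℂ] (Quotient S.K → ℂ) :=
    { toFun := fun a q => Quotient.liftOn q
        (fun g => ∑ chi : IrrC (U n F), a ⟦chi⟧ * (chi.1 1 * chi.1 g))
        (fun g h hgh => sum_group S a hgh)
      map_add' := by
        intro a b
        funext q
        induction q using Quotient.inductionOn with | h g =>
        change ∑ chi : IrrC (U n F), (a + b) ⟦chi⟧ * (chi.1 1 * chi.1 g) =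
          ∑ chi : IrrC (U n F), a ⟦chi⟧ * (chi.1 1 * chi.1 g) +
          ∑ chi : IrrC (U n F), b ⟦chi⟧ * (chi.1 1 * chi.1 g)
        rw [← Finset.sum_add_distrib]
        refine Finset.sum_congr rfl fun chi _ => ?_
        rw [Pi.add_apply, add_mul]
      map_smul' := by
        intro t a
        funext q
        induction q using Quotient.inductionOn with | h g =>
        change ∑ chi : IrrC (U n F), (t • a) ⟦chi⟧ * (chi.1 1 * chi.1 g) =
          t • ∑ chi : IrrC (U n F), a ⟦chi⟧ * (chi.1 1 * chi.1 g)
        rw [Finset.smul_sum]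
        refine Finset.sum_congr rfl fun chi _ => ?_
        rw [Pi.smul_apply, smul_mul_assoc] }
  have hL : Function.Injective L := by
    rw [← LinearMap.ker_eq_bot, LinearMap.ker_eq_bot']
    intro a ha
    funext q
    induction q using Quotient.inductionOn with | h psi =>
    have h1 : (fun g => ∑ chi : IrrC (U n F), (a ⟦chi⟧ * chi.1 1) * chi.1 g) = 0 := by
      funext g
      have h2 := congrFun ha ⟦g⟧
      change ∑ chi : IrrC (U n F), a ⟦chi⟧ * (chi.1 1 * chi.1 g) = 0 at h2
      rw [Pi.zero_apply, ← h2]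
      refine Finset.sum_congr rfl fun chi _ => ?_
      ring
    have h3 := B_sum_coeff (fun chi => a ⟦chi⟧ * chi.1 1) psi
    rw [h1] at h3
    have h4 : B (0 : U n F → ℂ) psi.1 = 0 := by simp [B]
    rw [h4] at h3
    exact (mul_eq_zero.1 h3.symm).resolve_right (irr_one_ne psi.2)
  have hfr : Module.finrank ℂ (Quotient S.X → ℂ) = Module.finrank ℂ (Quotient S.K → ℂ) := by
    rw [Module.finrank_pi, Module.finrank_pi, ← Nat.card_eq_fintype_card,
      ← Nat.card_eq_fintype_card, S.card_eq]
  have hsurj : Function.Surjective L :=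
    (LinearMap.injective_iff_surjective_of_finrank_eq_finrank hfr).1 hL
  obtain ⟨a, ha⟩ := hsurj (fun q => Quotient.liftOn q f hf)
  refine ⟨a, fun g => ?_⟩
  exact (congrFun ha ⟦g⟧).symm

/-- the partition of the irreducible characters -/
theorem finer_X {S : SCT (U n F)} (hS : ContainsBoxes th S) (chi psi : IrrC (U n F))
    (h : S.X chi psi) : Phi hth chi = Phi hth psi := by
  classical
  obtain ⟨lam, hlam⟩ := Quotient.exists_rep (Phi hth chi)
  obtain ⟨a, ha⟩ := span_sigma S (fO th lam)
    (fun g k hgk => fO_superclass th lam (finer_K hth hS g k hgk))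
  have h1 : fO th lam = fun g => ∑ chi : IrrC (U n F), (a ⟦chi⟧ * chi.1 1) * chi.1 g := by
    funext g
    rw [ha g]
    refine Finset.sum_congr rfl fun chi _ => ?_
    ring
  have h2 := B_fO hth chi lam
  have h3 := B_fO hth psi lam
  rw [h1, B_sum_coeff] at h2 h3
  rw [if_pos hlam.symm] at h2
  have h4 : a ⟦chi⟧ = 1 := by
    apply mul_right_cancel₀ (irr_one_ne chi.2)
    rw [h2, one_mul]
  have h5 : (⟦chi⟧ : Quotient S.X) = ⟦psi⟧ := Quotient.sound h
  rw [← h5, h4, one_mul] at h3
  by_contra h6
  rw [if_neg] at h3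
  · exact irr_one_ne psi.2 h3
  · intro h7
    exact h6 (hlam.symm.trans h7.symm)

/-- `A` is the coarsest supercharacter theory which contains the irreducible characters of the
single boxes. -/
def IsCoarsest (th : AddChar F ℂ) (A : SCT (U n F)) : Prop :=
  ContainsBoxes th A ∧ ∀ S : SCT (U n F), ContainsBoxes th S → A.Coarser S

theorem andre_isCoarsest : IsCoarsest th (andre hth (n := n)) :=
  ⟨andre_containsBoxes hth, fun _ hS => ⟨fun g h hgh => finer_K hth hS g h hgh,
    fun chi psi h => finer_X hth hS chi psi h⟩⟩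

/-- a theory as in the definition of `IsAndre` has the same partitions as `andre` -/
lemma isAndre_unique {A : SCT (U n F)} (hA : IsAndre th A) :
    (∀ g h, A.K g h ↔ (andre hth).K g h) ∧ ∀ chi psi, A.X chi psi ↔ (andre hth).X chi psi := by
  classical
  refine ⟨fun g h => hA.1 g h, fun chi psi => ?_⟩
  obtain ⟨lam, c, hc, hc'⟩ := hA.2.1 chi
  have hc0 : (c : ℂ) ≠ 0 := by exact_mod_cast hc.ne'
  have key : ∀ phi : IrrC (U n F), (if A.X chi phi then phi.1 1 else 0) =
      c * (if Phi hth phi = ⟦lam⟧ then phi.1 1 else 0) := by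
    intro phi
    have h1 : (fun g => ∑ phi : IrrC (U n F), (if A.X.r chi phi then phi.1 1 else 0) * phi.1 g) =
        (c : ℂ) • fO th lam := by
      funext g
      rw [Pi.smul_apply, smul_eq_mul, ← orbSum_eq, ← hc', sigma_eq]
      refine Finset.sum_congr rfl fun phi _ => ?_
      rw [ite_mul, zero_mul]
    have h2 := B_sum_coeff (fun phi => if A.X.r chi phi then phi.1 1 else 0) phi
    rw [h1, B_smul_left, B_fO hth] at h2
    exact h2.symm
  have h3 := key chi
  rw [if_pos (A.X.refl chi)] at h3
  have h4 : Phi hth chi = ⟦lam⟧ := by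
    by_contra h5
    rw [if_neg h5, mul_zero] at h3
    exact irr_one_ne chi.2 h3
  have h6 := key psi
  constructor
  · intro h7
    rw [if_pos h7] at h6
    change Phi hth chi = Phi hth psi
    by_contra h8
    rw [if_neg (fun h9 => h8 (h4.trans h9.symm)), mul_zero] at h6
    exact irr_one_ne psi.2 h6
  · intro h7
    by_contra h8
    rw [if_neg h8, if_pos (Eq.trans (Eq.symm h7) h4)] at h6
    exact mul_ne_zero hc0 (irr_one_ne psi.2) h6.symm

include hth in
theorem isAndre_iff (A : SCT (U n F)) : IsAndre th A ↔ IsCoarsest th A := by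
  constructor
  · intro hA
    obtain ⟨h1, h2⟩ := isAndre_unique hth hA
    refine ⟨?_, ?_⟩
    · intro i j a hij ha chi hchi psi hpsi
      exact andre_containsBoxes hth i j a hij ha chi hchi psi ((h2 chi psi).1 hpsi)
    · intro S hS
      obtain ⟨h3, h4⟩ := (andre_isCoarsest hth).2 S hS
      exact ⟨fun g h hgh => (h1 g h).2 (h3 g h hgh), fun chi psi h => (h2 chi psi).2 (h4 chi psi h)⟩
  · intro hA
    obtain ⟨h3, h4⟩ := (andre_isCoarsest hth).2 A hA.1
    obtain ⟨h5, h6⟩ := hA.2 (andre hth) (andre_containsBoxes hth)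
    have eX : A.X = (andre hth).X := by
      ext chi psi
      exact ⟨h4 chi psi, h6 chi psi⟩
    have eK : A.K = (andre hth).K := by
      ext g h
      exact ⟨h3 g h, h5 g h⟩
    have h7 := isAndre (n := n) hth
    unfold IsAndre at h7 ⊢
    rw [eX, eK]
    exact h7

end Pool.Agent.D0H73.SC
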