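import Pool.Agent.D0H73.SC.Basic
import Pool.Agent.Helper884.IC.Compl

/-!
# Fourier analysis on the strictly upper triangular matrices
-/

set_option autoImplicit false
set_option linter.unusedSectionVars false

namespace Pool.Agent.D0H73.SC

open Matrix Module

variable {n : ℕ} {F : Type} [Field F]

/-- the pairing `θ (μ (y))` -/
noncomputable def pr (th : AddChar F ℂ) (mu : Dual F (nil n F)) (y : nil n F) : ℂ := th (mu y)

lemma pr_add (th : AddChar F ℂ) (mu : Dual F (nil n F)) (x y : nil n F) :
    pr th mu (x + y) = pr th mu x * pr th mu y := by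
  rw [pr, map_add, AddChar.map_add_eq_mul]
  rfl

lemma pr_comp (th : AddChar F ℂ) (mu : Dual F (nil n F)) (u v : U n F) (y : nil n F) :
    pr th (mu ∘ₗ bi u v) y = pr th mu (bi u v y) := rfl

variable [Finite F]

lemma exists_ne_one {th : AddChar F ℂ} (hth : th ≠ 1) : ∃ c : F, th c ≠ 1 := by
  by_contra h
  push Not at h
  exact hth (DFunLike.ext _ _ h)

lemma sum_dual [Fintype (Dual F (nil n F))] {th : AddChar F ℂ} (hth : th ≠ 1) (y : nil n F)
    (hy : y ≠ 0) : ∑ mu : Dual F (nil n F), pr th mu y = 0 := by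
  obtain ⟨c, hc⟩ := exists_ne_one hth
  obtain ⟨f, hf⟩ : ∃ f : Dual F (nil n F), f y = c := by
    obtain ⟨f, hf⟩ : ∃ f : Dual F (nil n F), f y ≠ 0 := by
      by_contra h
      push Not at h
      exact hy ((Module.forall_dual_apply_eq_zero_iff F y).1 h)
    exact ⟨(c / f y) • f, by rw [LinearMap.smul_apply, smul_eq_mul, div_mul_cancel₀ _ hf]⟩
  have h1 : ∑ mu : Dual F (nil n F), pr th mu y = th c * ∑ mu : Dual F (nil n F), pr th mu y := by
    conv_lhs => rw [← Equiv.sum_comp (Equiv.addRight f)]
    rw [Finset.mul_sum]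
    refine Finset.sum_congr rfl fun mu _ => ?_
    rw [pr, pr, Equiv.coe_addRight, LinearMap.add_apply, hf, AddChar.map_add_eq_mul, mul_comm]
  have h2 : (th c - 1) * ∑ mu : Dual F (nil n F), pr th mu y = 0 := by
    rw [sub_mul, one_mul, ← h1, sub_self]
  exact (mul_eq_zero.1 h2).resolve_left (sub_ne_zero.2 hc)

lemma sum_nil [Fintype (nil n F)] {th : AddChar F ℂ} (hth : th ≠ 1) (mu : Dual F (nil n F))
    (hmu : mu ≠ 0) : ∑ y : nil n F, pr th mu y = 0 := by
  obtain ⟨c, hc⟩ := exists_ne_one hth
  obtain ⟨z, hz⟩ : ∃ z, mu z = c := by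
    obtain ⟨z, hz⟩ : ∃ z, mu z ≠ 0 := by
      by_contra h
      push Not at h
      exact hmu (LinearMap.ext h)
    exact ⟨(c / mu z) • z, by rw [map_smul, smul_eq_mul, div_mul_cancel₀ _ hz]⟩
  have h1 : ∑ y : nil n F, pr th mu y = th c * ∑ y : nil n F, pr th mu y := by
    conv_lhs => rw [← Equiv.sum_comp (Equiv.addRight z)]
    rw [Finset.mul_sum]
    refine Finset.sum_congr rfl fun y _ => ?_
    rw [Equiv.coe_addRight, pr_add, mul_comm]
    congr 1
    rw [pr, hz]
  have h2 : (th c - 1) * ∑ y : nil n F, pr th mu y = 0 := by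
    rw [sub_mul, one_mul, ← h1, sub_self]
  exact (mul_eq_zero.1 h2).resolve_left (sub_ne_zero.2 hc)

lemma pr_sub_left (th : AddChar F ℂ) (mu nu : Dual F (nil n F)) (y : nil n F) :
    pr th (mu - nu) y = pr th mu y * pr th nu (-y) := by
  rw [pr, pr, pr, LinearMap.sub_apply, map_neg, sub_eq_add_neg, AddChar.map_add_eq_mul]

lemma pr_zero_left (th : AddChar F ℂ) (y : nil n F) : pr th (0 : Dual F (nil n F)) y = 1 := by
  rw [pr, LinearMap.zero_apply, AddChar.map_zero_eq_one]

lemma pr_zero_right (th : AddChar F ℂ) (mu : Dual F (nil n F)) : pr th mu 0 = 1 := by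
  rw [pr, map_zero, AddChar.map_zero_eq_one]

/-- orthogonality in the first variable -/
lemma orth_nil [Fintype (nil n F)] [DecidableEq (Dual F (nil n F))] {th : AddChar F ℂ}
    (hth : th ≠ 1) (mu nu : Dual F (nil n F)) :
    ∑ y : nil n F, pr th mu y * pr th nu (-y) = if mu = nu then (Nat.card (nil n F) : ℂ) else 0 := by
  simp only [← pr_sub_left]
  by_cases h : mu = nu
  · subst h
    rw [if_pos rfl, sub_self]
    simp only [pr_zero_left]
    rw [Finset.sum_const, Finset.card_univ, nsmul_eq_mul, mul_one, Nat.card_eq_fintype_card]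
  · rw [if_neg h]
    exact sum_nil hth _ (sub_ne_zero.2 h)

/-- orthogonality in the second variable -/
lemma orth_dual [Fintype (Dual F (nil n F))] [DecidableEq (nil n F)] {th : AddChar F ℂ}
    (hth : th ≠ 1) (x y : nil n F) :
    ∑ mu : Dual F (nil n F), pr th mu x * pr th mu (-y) =
      if x = y then (Nat.card (Dual F (nil n F)) : ℂ) else 0 := by
  simp only [← pr_add, ← sub_eq_add_neg]
  by_cases h : x = y
  · subst h
    rw [if_pos rfl, sub_self]
    simp only [pr_zero_right]
    rw [Finset.sum_const, Finset.card_univ, nsmul_eq_mul, mul_one, Nat.card_eq_fintype_card]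
  · rw [if_neg h]
    exact sum_dual hth _ (sub_ne_zero.2 h)

lemma card_dual_eq : Nat.card (Dual F (nil n F)) = Nat.card (nil n F) := by
  have : Fintype F := Fintype.ofFinite F
  have := Fintype.ofFinite (nil n F)
  have := Fintype.ofFinite (Dual F (nil n F))
  rw [Nat.card_eq_fintype_card, Nat.card_eq_fintype_card, Module.card_eq_pow_finrank (K := F),
    Module.card_eq_pow_finrank (K := F) (V := nil n F), Subspace.dual_finrank_eq]

lemma card_U : Nat.card (U n F) = Nat.card (nil n F) := Nat.card_congr lgEquiv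

/-- the number of classes: a general comparison -/
lemma card_quot_le {α β : Type} [Fintype α] [Fintype β] (ra : Setoid α) (rb : Setoid β)
    (e : α → β → ℂ) (hinj : ∀ c : α → ℂ, (∀ b, ∑ a, c a * e a b = 0) → c = 0)
    (hinv : ∀ b b', rb b b' → ∃ σ : Equiv.Perm α, (∀ a, ra a (σ a)) ∧ ∀ a, e a b' = e (σ a) b) :
    Nat.card (Quotient ra) ≤ Nat.card (Quotient rb) := by
  classical
  let f : (Quotient ra → ℂ) →ₗ[ℂ] (Quotient rb → ℂ) :=
    { toFun := fun c q => Quotient.liftOn q (fun b => ∑ a, c ⟦a⟧ * e a b) (by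
        intro b b' h
        obtain ⟨σ, h1, h2⟩ := hinv b b' h
        conv_lhs => rw [← Equiv.sum_comp σ]
        refine Finset.sum_congr rfl fun a _ => ?_
        rw [h2, Quotient.sound (h1 a)])
      map_add' := by
        intro c d
        funext q
        induction q using Quotient.inductionOn with | h b =>
        change ∑ a, (c + d) ⟦a⟧ * e a b = ∑ a, c ⟦a⟧ * e a b + ∑ a, d ⟦a⟧ * e a b
        rw [← Finset.sum_add_distrib]
        refine Finset.sum_congr rfl fun a _ => ?_
        rw [Pi.add_apply, add_mul]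
      map_smul' := by
        intro t c
        funext q
        induction q using Quotient.inductionOn with | h b =>
        change ∑ a, (t • c) ⟦a⟧ * e a b = t • ∑ a, c ⟦a⟧ * e a b
        rw [Finset.smul_sum]
        refine Finset.sum_congr rfl fun a _ => ?_
        rw [Pi.smul_apply, smul_mul_assoc] }
  have hf : Function.Injective f := by
    rw [← LinearMap.ker_eq_bot, LinearMap.ker_eq_bot']
    intro c hc
    have h1 := hinj (fun a => c ⟦a⟧) (fun b => congrFun hc ⟦b⟧)
    funext q
    induction q using Quotient.inductionOn with | h a =>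
    exact congrFun h1 a
  have h := LinearMap.finrank_le_finrank_of_injective hf
  rwa [Module.finrank_pi, Module.finrank_pi, ← Nat.card_eq_fintype_card,
    ← Nat.card_eq_fintype_card] at h

/-- The relation of lying in the same two-sided orbit on the strictly upper triangular matrices. -/
def nilRel : Setoid (nil n F) where
  r x y := ∃ u v : U n F, y = bi u v x
  iseqv := {
    refl := fun g => ⟨1, 1, by rw [bi_one]; rfl⟩
    symm := by
      rintro g h ⟨u, v, e⟩
      refine ⟨u⁻¹, v⁻¹, ?_⟩
      rw [e, bi_bi, inv_mul_cancel, mul_inv_cancel, bi_one]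
      rfl
    trans := by
      rintro g h k ⟨u, v, e⟩ ⟨u', v', e'⟩
      refine ⟨u' * u, v * v', ?_⟩
      rw [e', e, bi_bi] }

/-- the permutation `y ↦ u y v` -/
def biPerm (u v : U n F) : Equiv.Perm (nil n F) where
  toFun := bi u v
  invFun := bi u⁻¹ v⁻¹
  left_inv y := by rw [bi_bi, inv_mul_cancel, mul_inv_cancel, bi_one]; rfl
  right_inv y := by rw [bi_bi, mul_inv_cancel, inv_mul_cancel, bi_one]; rfl

/-- the permutation `μ ↦ μ (u · v)` -/
def dualPerm (u v : U n F) : Equiv.Perm (Dual F (nil n F)) where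
  toFun mu := mu ∘ₗ bi u v
  invFun mu := mu ∘ₗ bi u⁻¹ v⁻¹
  left_inv y := by
    change (y ∘ₗ bi u v) ∘ₗ bi u⁻¹ v⁻¹ = y
    rw [LinearMap.comp_assoc, bi_comp, mul_inv_cancel, inv_mul_cancel, bi_one]; rfl
  right_inv y := by
    change (y ∘ₗ bi u⁻¹ v⁻¹) ∘ₗ bi u v = y
    rw [LinearMap.comp_assoc, bi_comp, inv_mul_cancel, mul_inv_cancel, bi_one]; rfl

lemma dualPerm_apply (u v : U n F) (mu : Dual F (nil n F)) : dualPerm u v mu = mu ∘ₗ bi u v := rfl

lemma inj_dual [Fintype (Dual F (nil n F))] {th : AddChar F ℂ} (hth : th ≠ 1)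
    (c : Dual F (nil n F) → ℂ) (h : ∀ y, ∑ mu, c mu * pr th mu y = 0) : c = 0 := by
  classical
  have := Fintype.ofFinite (nil n F)
  funext nu
  have h1 : ∑ y : nil n F, (∑ mu, c mu * pr th mu y) * pr th nu (-y) = 0 := by
    refine Finset.sum_eq_zero fun y _ => ?_
    rw [h, zero_mul]
  simp only [Finset.sum_mul, mul_assoc] at h1
  rw [Finset.sum_comm] at h1
  simp only [← Finset.mul_sum, orth_nil hth] at h1
  simp only [mul_ite, mul_zero, Finset.sum_ite_eq', Finset.mem_univ, if_true] at h1
  have h2 : (Nat.card (nil n F) : ℂ) ≠ 0 := by exact_mod_cast Nat.card_pos.ne'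
  exact (mul_eq_zero.1 h1).resolve_right h2

lemma inj_nil [Fintype (nil n F)] {th : AddChar F ℂ} (hth : th ≠ 1)
    (c : nil n F → ℂ) (h : ∀ mu : Dual F (nil n F), ∑ y, c y * pr th mu y = 0) : c = 0 := by
  classical
  have := Fintype.ofFinite (Dual F (nil n F))
  funext x
  have h1 : ∑ mu : Dual F (nil n F), (∑ y, c y * pr th mu y) * pr th mu (-x) = 0 := by
    refine Finset.sum_eq_zero fun y _ => ?_
    rw [h, zero_mul]
  simp only [Finset.sum_mul, mul_assoc] at h1
  rw [Finset.sum_comm] at h1
  simp only [← Finset.mul_sum, orth_dual hth] at h1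
  simp only [mul_ite, mul_zero, Finset.sum_ite_eq', Finset.mem_univ, if_true] at h1
  have h2 : (Nat.card (Dual F (nil n F)) : ℂ) ≠ 0 := by exact_mod_cast Nat.card_pos.ne'
  exact (mul_eq_zero.1 h1).resolve_right h2

/-- The number of two-sided orbits of functionals is the number of the superclasses. -/
theorem card_orbits {th : AddChar F ℂ} (hth : th ≠ 1) :
    Nat.card (Quotient (sameOrb (n := n) (F := F))) =
      Nat.card (Quotient (superclass (n := n) (F := F))) := by
  classical
  have := Fintype.ofFinite (nil n F)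
  have := Fintype.ofFinite (Dual F (nil n F))
  have h0 : Nat.card (Quotient (superclass (n := n) (F := F))) =
      Nat.card (Quotient (nilRel (n := n) (F := F))) := by
    refine Nat.card_congr (Quotient.congr lgEquiv ?_)
    intro g h
    exact Iff.rfl
  rw [h0]
  apply le_antisymm
  · refine card_quot_le sameOrb nilRel (fun mu y => pr th mu y) (inj_dual hth) ?_
    rintro x _ ⟨u, v, rfl⟩
    refine ⟨dualPerm u v, fun mu => ?_, fun mu => ?_⟩
    · exact (orb_comp mu u v).symm
    · rfl
  · refine card_quot_le nilRel sameOrb (fun y mu => pr th mu y) (inj_nil hth) ?_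
    intro lam mu h
    obtain ⟨u, v, rfl⟩ := (mem_orb_iff lam mu).2 h
    refine ⟨biPerm u v, fun y => ⟨u, v, rfl⟩, fun y => rfl⟩

end Pool.Agent.D0H73.SC
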