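import Pool.Agent.D0H73.SC.Chars

/-!
# Supercharacter theories and the supercharacter theory of André
-/

set_option autoImplicit false
set_option linter.unusedSectionVars false

open Matrix Module
open Pool.Agent.Helper884.IC (IsIrrChar B IsClass Irr mem_Irr expand B_irr
  B_sub_left B_smul_left cardG_ne isClass_char B_comm)

namespace Pool.Agent.D0H73.SC

/-- For an equivalence relation `X` on the irreducible characters and an irreducible character
`chi`, this is the character `σ = ∑ ψ(1) ψ`, the sum over the block of `chi`. -/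
noncomputable def sigma {G : Type} [Group G] (X : Setoid (IrrC G)) (chi : IrrC G) (g : G) : ℂ :=
  ∑ᶠ (psi : IrrC G) (_ : X chi psi), psi.1 1 * psi.1 g

/-- A supercharacter theory of the finite group `G` (Diaconis and Isaacs): a partition `X` of the set
of the irreducible characters and a partition `K` of `G` (both given by the equivalence relation of
lying in the same block) with the same number of blocks, such that `{1}` is a block of `K` and for
every block of `X` the character `∑ ψ(1) ψ` (sum over the block) is constant on the blocks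
of `K`. -/
structure SCT (G : Type) [Group G] [Finite G] where
  /-- the partition of the irreducible characters -/
  X : Setoid (IrrC G)
  /-- the partition of the group -/
  K : Setoid G
  card_eq : Nat.card (Quotient X) = Nat.card (Quotient K)
  one_block : ∀ g, K g 1 → g = 1
  const : ∀ chi g h, K g h → sigma X chi g = sigma X chi h

/-- The theory contains the irreducible character `chi`: `{chi}` is a block of `X`. -/
def SCT.Contains {G : Type} [Group G] [Finite G] (S : SCT G) (chi : IrrC G) : Prop :=
  ∀ psi, S.X chi psi → psi = chi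

/-- The theory `S` is coarser than (or equal to) the theory `T`: the partition `K` of `S` is
coarser than that of `T`, and the same for the partitions `X`. -/
def SCT.Coarser {G : Type} [Group G] [Finite G] (S T : SCT G) : Prop :=
  (∀ g h, T.K g h → S.K g h) ∧ ∀ chi psi, T.X chi psi → S.X chi psi

variable {n : ℕ} {F : Type} [Field F]

/-- The function `g ↦ ∑ θ (μ (g - 1))`, the sum over the two-sided orbit `U λ U`. -/
noncomputable def orbSum (th : AddChar F ℂ) (lam : Dual F (nil n F)) (g : U n F) : ℂ :=
  ∑ᶠ (mu : Dual F (nil n F)) (_ : mu ∈ orb lam), th (mu (lg g))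

/-- The function `f` is `g ↦ ∑ θ (μ (g - 1))`, the sum over the two-sided orbit `U λ U`, up to a
positive scalar. -/
def IsSupercharacter (th : AddChar F ℂ) (lam : Dual F (nil n F)) (f : U n F → ℂ) : Prop :=
  ∃ c : ℝ, 0 < c ∧ ∀ g, f g = c * orbSum th lam g

/-- `A` is the supercharacter theory of André of the group of unitriangular matrices: the blocks of
`K` are the sets of all `g` with `g - 1` in a two-sided orbit `U (x - 1) U`, and the supercharacters
(the characters `∑ ψ(1) ψ` for the blocks of `X`) are up to positive scalars the orbit sums for the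
two-sided orbits of functionals. -/
def IsAndre [Finite F] (th : AddChar F ℂ) (A : SCT (U n F)) : Prop :=
  (∀ g h, A.K g h ↔ ∃ u v : U n F, lg h = bi u v (lg g)) ∧
  (∀ chi, ∃ lam, IsSupercharacter th lam (sigma A.X chi)) ∧
  ∀ lam, ∃ chi, IsSupercharacter th lam (sigma A.X chi)

/-- `chi` is the irreducible character of the single box `(i, j)` with label `a`. -/
def IsBoxChar (th : AddChar F ℂ) (i j : Fin n) (a : F) (chi : IrrC (U n F)) : Prop :=
  IsSupercharacter th (box i j a) chi.1

/-- `S` contains all the irreducible characters of the single boxes. -/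
def ContainsBoxes [Finite F] (th : AddChar F ℂ) (S : SCT (U n F)) : Prop :=
  ∀ (i j : Fin n) (a : F), i < j → a ≠ 0 → ∀ chi, IsBoxChar th i j a chi → S.Contains chi

variable [Finite F]

lemma orbSum_eq (th : AddChar F ℂ) (lam : Dual F (nil n F)) : orbSum th lam = fO th lam := by
  classical
  funext g
  unfold orbSum fO
  rw [finsum_eq_sum_of_fintype]
  refine Finset.sum_congr rfl fun mu _ => ?_
  rw [finsum_eq_if]
  rfl

lemma sigma_eq (X : Setoid (IrrC (U n F))) [DecidableRel X.r] (chi : IrrC (U n F)) (g : U n F) :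
    sigma X chi g = ∑ psi : IrrC (U n F), if X.r chi psi then psi.1 1 * psi.1 g else 0 := by
  classical
  unfold sigma
  rw [finsum_eq_sum_of_fintype]
  refine Finset.sum_congr rfl fun mu _ => ?_
  exact finsum_eq_if

variable {th : AddChar F ℂ} (hth : th ≠ 1)

/-- the partition of the irreducible characters of the theory of André -/
noncomputable def andreX : Setoid (IrrC (U n F)) := Setoid.ker (Phi hth)

lemma sigma_andre (chi : IrrC (U n F)) (lam : Dual F (nil n F)) (h : Phi hth chi = ⟦lam⟧) :
    sigma (andreX hth) chi = fO th lam := by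
  classical
  funext g
  rw [sigma_eq, fO_expand hth]
  refine Finset.sum_congr rfl fun psi _ => ?_
  by_cases h1 : Phi hth psi = ⟦lam⟧
  · rw [if_pos h1, if_pos]
    change Phi hth chi = Phi hth psi
    rw [h, h1]
  · rw [if_neg h1, if_neg]
    intro h2
    exact h1 (Eq.trans (Eq.symm h2) h)

/-- the theory of André -/
noncomputable def andre : SCT (U n F) where
  X := andreX hth
  K := superclass
  card_eq := by
    rw [← card_orbits hth]
    exact Nat.card_congr (Setoid.quotientKerEquivOfSurjective (Phi hth) (Phi_surjective hth))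
  one_block := by
    rintro g ⟨u, v, e⟩
    rw [lg_one] at e
    have h1 : bi u⁻¹ v⁻¹ (bi u v (lg g)) = 0 := by rw [← e, map_zero]
    rw [bi_bi, inv_mul_cancel, mul_inv_cancel, bi_one] at h1
    apply lg_injective
    rw [lg_one]
    exact h1
  const := by
    intro chi g h hgh
    obtain ⟨lam, hlam⟩ := Quotient.exists_rep (Phi hth chi)
    rw [sigma_andre hth chi lam hlam.symm]
    exact fO_superclass th lam hgh

theorem isAndre : IsAndre (n := n) th (andre hth) := by
  refine ⟨fun g h => Iff.rfl, fun chi => ?_, fun lam => ?_⟩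
  · obtain ⟨lam, hlam⟩ := Quotient.exists_rep (Phi hth chi)
    refine ⟨lam, 1, one_pos, fun g => ?_⟩
    change sigma (andreX hth) chi g = _
    rw [sigma_andre hth chi lam hlam.symm, orbSum_eq, Complex.ofReal_one, one_mul]
  · obtain ⟨chi, hchi⟩ := Phi_surjective hth ⟦lam⟧
    refine ⟨chi, 1, one_pos, fun g => ?_⟩
    change sigma (andreX hth) chi g = _
    rw [sigma_andre hth chi lam hchi, orbSum_eq, Complex.ofReal_one, one_mul]

/-! ### single boxes -/

/-- the elementary matrix `1 + ∑ c_k E_{ik}` with `i < k < j` or the transposed pattern -/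
lemma exists_row (i j : Fin n) (u : U n F) : ∃ w : U n F, (∀ k, i < k → k < j → w.1.val i k =
    u.1.val i k) ∧ (∀ l k, l ≠ i → w.1.val l k = if l = k then 1 else 0) := by
  obtain ⟨w, hw⟩ := lg_surjective (n := n) (F := F) ⟨Matrix.of fun l k => if l = i ∧ i < k ∧ k < j then
    u.1.val i k else 0, by
      intro l k hkl
      change (if l = i ∧ i < k ∧ k < j then u.1.val i k else 0) = 0
      rw [if_neg]
      rintro ⟨rfl, h, -⟩
      exact absurd h (not_lt.2 hkl)⟩
  have h1 : w.1.val = 1 + Matrix.of fun l k =>
      if l = i ∧ i < k ∧ k < j then u.1.val i k else 0 := by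
    have := congrArg Subtype.val hw
    exact sub_eq_iff_eq_add'.1 this
  refine ⟨w, fun k hk hk' => ?_, fun l k hl => ?_⟩
  · rw [h1, Matrix.add_apply, Matrix.one_apply_ne hk.ne, zero_add]
    exact if_pos ⟨rfl, hk, hk'⟩
  · rw [h1, Matrix.add_apply, Matrix.one_apply]
    have h2 : (if l = i ∧ i < k ∧ k < j then u.1.val i k else 0) = 0 := if_neg fun h => hl h.1
    change (if l = k then 1 else 0) + (if l = i ∧ i < k ∧ k < j then u.1.val i k else 0) = _
    rw [h2, add_zero]

lemma exists_col (i j : Fin n) (v : U n F) : ∃ w : U n F, (∀ k, i < k → k < j → w.1.val k j =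
    v.1.val k j) ∧ (∀ k l, ¬ (l = j ∧ i < k ∧ k < j) → w.1.val k l = if k = l then 1 else 0) := by
  obtain ⟨w, hw⟩ := lg_surjective (n := n) (F := F) ⟨Matrix.of fun k l => if l = j ∧ i < k ∧ k < j then
    v.1.val k j else 0, by
      intro k l hkl
      change (if l = j ∧ i < k ∧ k < j then v.1.val k j else 0) = 0
      rw [if_neg]
      rintro ⟨rfl, -, h⟩
      exact absurd h (not_lt.2 hkl)⟩
  have h1 : w.1.val = 1 + Matrix.of fun k l =>
      if l = j ∧ i < k ∧ k < j then v.1.val k j else 0 := by
    have := congrArg Subtype.val hw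
    exact sub_eq_iff_eq_add'.1 this
  refine ⟨w, fun k hk hk' => ?_, fun k l hl => ?_⟩
  · rw [h1, Matrix.add_apply, Matrix.one_apply_ne hk'.ne, zero_add]
    exact if_pos ⟨rfl, hk, hk'⟩
  · rw [h1, Matrix.add_apply, Matrix.one_apply]
    have h2 : (if l = j ∧ i < k ∧ k < j then v.1.val k j else 0) = 0 := if_neg hl
    change (if k = l then 1 else 0) + (if l = j ∧ i < k ∧ k < j then v.1.val k j else 0) = _
    rw [h2, add_zero]

/-- the value of a box functional on `u y v` only depends on the row `i` of `u` and the column `j`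
of `v` -/
lemma box_bi (i j : Fin n) (a : F) (u v : U n F) (y : nil n F) :
    box i j a (bi u v y) = a * ∑ k, ∑ l, u.1.val i l * y.1 l k * v.1.val k j := by
  rw [box_apply, bi_val, mul_apply]
  congr 1
  refine Finset.sum_congr rfl fun k _ => ?_
  rw [mul_apply, Finset.sum_mul]

lemma box_bi_congr (i j : Fin n) (a : F) (u v u' v' : U n F)
    (hu : ∀ k, i < k → k < j → u.1.val i k = u'.1.val i k)
    (hv : ∀ k, i < k → k < j → v.1.val k j = v'.1.val k j) :
    box i j a ∘ₗ bi u v = box i j a ∘ₗ bi u' v' := by
  ext1 y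
  change box i j a (bi u v y) = box i j a (bi u' v' y)
  rw [box_bi, box_bi]
  congr 1
  refine Finset.sum_congr rfl fun k _ => Finset.sum_congr rfl fun l _ => ?_
  by_cases h1 : l < k
  swap
  · rw [nil_zero y (not_lt.1 h1), mul_zero, mul_zero, zero_mul, zero_mul]
  by_cases h2 : l < i
  · rw [U_below u h2, U_below u' h2, zero_mul, zero_mul, zero_mul]
  by_cases h3 : j < k
  · rw [U_below v h3, U_below v' h3, mul_zero, mul_zero]
  rw [not_lt] at h2 h3
  have e1 : u.1.val i l = u'.1.val i l := by
    rcases h2.eq_or_lt with h | h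
    · rw [← h, U_diag, U_diag]
    · exact hu l h (lt_of_lt_of_le h1 h3)
  have e2 : v.1.val k j = v'.1.val k j := by
    rcases h3.eq_or_lt with h | h
    · rw [h, U_diag, U_diag]
    · exact hv k (lt_of_le_of_lt h2 h1) h
  rw [e1, e2]

/-- the two-sided orbit of a box functional is a single orbit under conjugation -/
lemma box_conj (i j : Fin n) (a : F) (u v : U n F) :
    ∃ w : U n F, box i j a ∘ₗ bi u v = box i j a ∘ₗ bi w w⁻¹ := by
  obtain ⟨A, hA, hA'⟩ := exists_row i j u
  obtain ⟨C, hC, hC'⟩ := exists_col i j v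
  refine ⟨C⁻¹ * A, box_bi_congr i j a _ _ _ _ ?_ ?_⟩
  · -- the row `i` of `C⁻¹` is the row of the identity
    have h1 : ∀ k, (C⁻¹).1.val i k = if i = k then 1 else 0 := by
      intro k
      have h2 : C.1.val * (C⁻¹).1.val = 1 := by
        rw [← Units.val_mul, ← Subgroup.coe_mul, mul_inv_cancel]; rfl
      have h3 := congrFun (congrFun h2 i) k
      rw [mul_apply, Finset.sum_eq_single i, U_diag, one_mul, Matrix.one_apply] at h3
      · exact h3
      · intro l _ hl
        rw [hC' i l (fun h => lt_irrefl _ h.2.1), if_neg hl.symm, zero_mul]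
      · intro h
        exact absurd (Finset.mem_univ _) h
    intro k hk hk'
    rw [Subgroup.coe_mul, Units.val_mul, mul_apply, Finset.sum_eq_single i, h1, if_pos rfl, one_mul]
    · exact (hA k hk hk').symm
    · intro l _ hl
      rw [h1, if_neg hl.symm, zero_mul]
    · intro h
      exact absurd (Finset.mem_univ _) h
  · have h1 : ∀ k l, k ≠ i → (A⁻¹).1.val k l = if k = l then 1 else 0 := by
      intro k l hk
      have h2 : A.1.val * (A⁻¹).1.val = 1 := by
        rw [← Units.val_mul, ← Subgroup.coe_mul, mul_inv_cancel]; rfl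
      have h3 := congrFun (congrFun h2 k) l
      rw [mul_apply, Finset.sum_eq_single k, U_diag, one_mul, Matrix.one_apply] at h3
      · exact h3
      · intro m _ hm
        rw [hA' k m hk, if_neg hm.symm, zero_mul]
      · intro h
        exact absurd (Finset.mem_univ _) h
    intro k hk hk'
    have h4 : (C⁻¹ * A)⁻¹ = A⁻¹ * C := by group
    rw [h4, Subgroup.coe_mul, Units.val_mul, mul_apply, Finset.sum_eq_single k, h1 k k hk.ne',
      if_pos rfl, one_mul]
    · exact (hC k hk hk').symm
    · intro l _ hl
      rw [h1 k l hk.ne', if_neg hl.symm, zero_mul]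
    · intro h
      exact absurd (Finset.mem_univ _) h

/-- Fourier coefficients of class functions are constant on conjugation orbits -/
lemma cf_conj (th : AddChar F ℂ) {chi : U n F → ℂ} (h : IsClass chi) (mu : Dual F (nil n F))
    (w : U n F) : cf th chi (mu ∘ₗ bi w w⁻¹) = cf th chi mu := by
  unfold cf
  refine Fintype.sum_equiv (MulAut.conj w).toEquiv _ _ fun g => ?_
  change _ = chi (w * g * w⁻¹) * pr th mu (-lg (w * g * w⁻¹))
  rw [h g w, lg_conj, pr_comp, map_neg]

lemma cf_zero (chi : IrrC (U n F)) {nu : Dual F (nil n F)} (h : Phi hth chi ≠ ⟦nu⟧) :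
    cf th chi.1 nu = 0 := by
  by_contra h1
  exact h (Phi_of_cf hth chi h1)

/-- an irreducible character in the orbit of a box is a multiple of the orbit sum -/
lemma box_char (i j : Fin n) (a : F) (chi : IrrC (U n F)) (h : Phi hth chi = ⟦box i j a⟧) :
    ∃ c : ℂ, ∀ g, chi.1 g = c * fO th (box i j a) g := by
  classical
  have h8 : (Nat.card (nil n F) : ℂ) ≠ 0 := by exact_mod_cast Nat.card_pos.ne'
  refine ⟨cf th chi.1 (box i j a) / Nat.card (nil n F), fun g => ?_⟩
  have h1 := inversion hth chi.1 g
  have h2 : ∀ mu : Dual F (nil n F), cf th chi.1 mu * pr th mu (lg g) =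
      cf th chi.1 (box i j a) * (if mu ∈ orb (box i j a) then pr th mu (lg g) else 0) := by
    intro mu
    by_cases hm : mu ∈ orb (box i j a)
    · rw [if_pos hm]
      obtain ⟨u, v, rfl⟩ := hm
      obtain ⟨w, hw⟩ := box_conj i j a u v
      rw [hw, cf_conj th (Pool.Agent.Helper884.IC.IsIrrChar.isClass chi.2)]
    · rw [if_neg hm, mul_zero, cf_zero hth chi, zero_mul]
      rw [h]
      intro h3
      exact hm ((mem_orb_iff _ _).2 (Quotient.exact h3))
  simp only [h2, ← Finset.mul_sum] at h1
  rw [fO, div_mul_eq_mul_div, h1, mul_div_cancel_left₀ _ h8]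

/-- two irreducible characters in the orbit of a box are equal -/
lemma box_unique (i j : Fin n) (a : F) (chi psi : IrrC (U n F)) (h : Phi hth chi = ⟦box i j a⟧)
    (h' : Phi hth psi = ⟦box i j a⟧) : chi = psi := by
  classical
  obtain ⟨c, hc⟩ := box_char hth i j a chi h
  obtain ⟨d, hd⟩ := box_char hth i j a psi h'
  have hc0 : c ≠ 0 := by
    rintro rfl
    apply irr_one_ne chi.2
    rw [hc, zero_mul]
  have hd0 : d ≠ 0 := by
    rintro rfl
    apply irr_one_ne psi.2
    rw [hd, zero_mul]
  by_contra hne
  have h1 : B chi.1 psi.1 = 0 := by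
    rw [B_irr chi.2 psi.2, if_neg]
    intro h2
    exact hne (Subtype.ext h2)
  have h2 : chi.1 = (c / d) • psi.1 := by
    funext g
    rw [Pi.smul_apply, smul_eq_mul, hc, hd]
    field_simp
  rw [h2, B_smul_left, B_irr psi.2 psi.2, if_pos rfl, mul_one] at h1
  exact (div_ne_zero hc0 hd0) h1

include hth in
/-- the character of a box exists -/
theorem exists_boxChar (i j : Fin n) (a : F) : ∃ chi : IrrC (U n F), IsBoxChar th i j a chi := by
  obtain ⟨chi, hchi⟩ := Phi_surjective hth ⟦box i j a⟧
  obtain ⟨c, hc⟩ := box_char hth i j a chi hchi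
  obtain ⟨d, hd, hd'⟩ := irr_one chi.2
  obtain ⟨e, he, he'⟩ := fO_one (th := th) (box i j a)
  have h1 := hc 1
  rw [hd', he'] at h1
  have he0 : (e : ℂ) ≠ 0 := by exact_mod_cast he.ne'
  have h2 : c = ((d / e : ℝ) : ℂ) := by
    push_cast
    rw [h1]
    field_simp
  refine ⟨chi, d / e, by positivity, fun g => ?_⟩
  rw [hc g, orbSum_eq, h2]

lemma Phi_boxChar (i j : Fin n) (a : F) (chi : IrrC (U n F)) (h : IsBoxChar th i j a chi) :
    Phi hth chi = ⟦box i j a⟧ := by
  classical
  obtain ⟨c, hc, hc'⟩ := h
  have h1 : chi.1 = (c : ℂ) • fO th (box i j a) := by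
    funext g
    rw [hc', orbSum_eq]
    rfl
  by_contra hne
  have h2 := B_fO hth chi (box i j a)
  rw [if_neg hne] at h2
  have h3 : B chi.1 chi.1 = 1 := by rw [B_irr chi.2 chi.2, if_pos rfl]
  have h4 : B chi.1 chi.1 = c * B (fO th (box i j a)) chi.1 := by
    conv_lhs => rw [h1]
    rw [B_smul_left, ← h1]
  rw [h4, h2, mul_zero] at h3
  exact zero_ne_one h3

/-- the theory of André contains the characters of the boxes -/
theorem andre_containsBoxes : ContainsBoxes (n := n) th (andre hth) := by
  intro i j a _ _ chi h psi hpsi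
  have h1 := Phi_boxChar hth i j a chi h
  have h2 : Phi hth chi = Phi hth psi := hpsi
  exact box_unique hth i j a psi chi (h2 ▸ h1) h1

end Pool.Agent.D0H73.SC
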